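import Mathlib

/-! Sums of roots of unity of odd prime power order whose modulus squared is a power of the
prime. -/

set_option autoImplicit false

namespace Pool.Agent.P.MP_d5661c_co.Ab

open Finset NumberField

/-- a sum of powers -/
def X {ι R : Type*} [Fintype ι] [CommSemiring R] (l : ι → ℕ) (y : R) : R := ∑ i, y ^ l i

theorem map_X {ι R S F : Type*} [Fintype ι] [CommSemiring R] [CommSemiring S] [FunLike F R S]
    [RingHomClass F R S] (φ : F) (l : ι → ℕ) (y : R) : φ (X l y) = X l (φ y) := by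
  simp [X, map_sum, map_pow]

/-- the chosen primitive root -/
noncomputable abbrev zt (p k : ℕ) [Fact p.Prime] (K : Type) [Field K] [CharZero K]
    [IsCyclotomicExtension {p ^ (k + 1)} ℚ K] : K := IsCyclotomicExtension.zeta (p ^ (k + 1)) ℚ K

section K

variable {p k : ℕ} [hp : Fact p.Prime] {K : Type} [Field K] [CharZero K]
  [IsCyclotomicExtension {p ^ (k + 1)} ℚ K]

theorem zs : IsPrimitiveRoot (zt p k K) (p ^ (k + 1)) := IsCyclotomicExtension.zeta_spec _ _ _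

theorem sig {s : ℕ} (hs : Nat.Coprime s p) : ∃ σ : K ≃+* K, σ (zt p k K) = (zt p k K) ^ s := by
  have h : IsPrimitiveRoot ((zt p k K) ^ s) (p ^ (k + 1)) :=
    zs.pow_of_coprime s (Nat.Coprime.pow_right _ hs)
  exact ⟨(IsCyclotomicExtension.fromZetaAut h
    (Polynomial.cyclotomic.irreducible_rat (NeZero.pos _))).toRingEquiv,
    IsCyclotomicExtension.fromZetaAut_spec h
      (Polynomial.cyclotomic.irreducible_rat (NeZero.pos _))⟩

theorem zinv : (zt p k K)⁻¹ = (zt p k K) ^ (p ^ (k + 1) - 1) := by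
  apply inv_eq_of_mul_eq_one_right
  rw [← pow_succ', Nat.sub_add_cancel (NeZero.pos (p ^ (k + 1)))]
  exact zs.pow_eq_one

theorem sq_eq (hp2 : p ≠ 2) {ι : Type*} [Fintype ι] (l : ι → ℕ) {b : ℕ}
    (h : X l (zt p k K) * X l (zt p k K)⁻¹ = (p : K) ^ b) : ∃ r : ℕ, X l (zt p k K) ^ 2 = (p : K) ^ b * (-(zt p k K)) ^ r := by
  have : NumberField K := IsCyclotomicExtension.numberField {p ^ (k + 1)} ℚ K
  have hodd : Odd (p ^ (k + 1)) := (hp.out.odd_of_ne_two hp2).pow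
  set q := p ^ (k + 1) with hq
  have hq0 : 0 < q := NeZero.pos _
  set z : 𝓞 K := (zs (p := p) (k := k) (K := K)).toInteger with hz
  have hzq : z ^ q = 1 := (zs (p := p) (k := k) (K := K)).toInteger_isPrimitiveRoot.pow_eq_one
  have hzc : algebraMap (𝓞 K) K z = (zt p k K) := rfl
  have hπ : Prime (z - 1) := zs.zeta_sub_one_prime
  have hx : algebraMap (𝓞 K) K (X l z) = X l (zt p k K) := map_X _ _ _
  have hxb : algebraMap (𝓞 K) K (X l (z ^ (q - 1))) = X l (zt p k K)⁻¹ := by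
    rw [map_X, map_pow, hzc, zinv]
  have hm : X l z * X l (z ^ (q - 1)) = (p : 𝓞 K) ^ b := by
    apply FaithfulSMul.algebraMap_injective (𝓞 K) K
    rw [map_mul, hx, hxb, h]
    simp
  have hd : (p : 𝓞 K) ∣ (z - 1) ^ q := by
    obtain ⟨r, hr⟩ := exists_add_pow_prime_pow_eq hp.out z (-1) (k + 1)
    rw [sub_eq_add_neg, hr, ← hq, hzq, hodd.neg_one_pow]
    exact ⟨z * -1 * r, by ring⟩
  have hd2 : X l z ∣ (z - 1) ^ (q * b) := by
    rw [pow_mul]
    exact (Dvd.intro _ hm).trans (pow_dvd_pow_of_dvd hd b)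
  obtain ⟨i, -, hi⟩ := (dvd_prime_pow hπ _).1 hd2
  have hc : Nat.Coprime (q - 1) p := by
    have : Nat.Coprime (q - 1) q := by
      have := Nat.coprime_add_self_right (m := q - 1) (n := 1) |>.2 (by simp)
      rwa [add_comm, Nat.sub_add_cancel hq0] at this
    exact Nat.Coprime.coprime_dvd_right (dvd_pow_self p (by omega)) this
  obtain ⟨σ, hσ⟩ := sig (k := k) (K := K) hc
  have hcz : RingOfIntegers.mapRingEquiv σ z = z ^ (q - 1) := by
    apply FaithfulSMul.algebraMap_injective (𝓞 K) K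
    rw [map_pow, hzc, ← hσ]
    rfl
  have hi2 := hi.map (RingOfIntegers.mapRingEquiv σ)
  rw [map_X, map_pow, map_sub, map_one, hcz] at hi2
  have hzz : z ^ (q - 1) * z = 1 := by rw [← pow_succ, Nat.sub_add_cancel hq0, hzq]
  have ha : Associated (z ^ (q - 1) - 1) (z - 1) :=
    associated_of_dvd_dvd ⟨-z, by linear_combination hzz⟩
      ⟨-z ^ (q - 1), by linear_combination hzz⟩
  obtain ⟨u, hu⟩ := (hi2.trans ha.pow_pow).trans hi.symm
  have huK : X l (zt p k K)⁻¹ * algebraMap (𝓞 K) K u = X l (zt p k K) := by rw [← hxb, ← map_mul, hu, hx]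
  have hp0 : (p : K) ^ b ≠ 0 := pow_ne_zero _ (Nat.cast_ne_zero.2 hp.out.ne_zero)
  have hx0 : X l (zt p k K) ≠ 0 := fun e => hp0 (by rw [← h, e, zero_mul])
  obtain ⟨n, hn, hun⟩ := NumberField.Embeddings.pow_eq_one_of_norm_eq_one K ℂ
    (x := algebraMap (𝓞 K) K u) (RingOfIntegers.isIntegral_coe _) (fun φ => by
      have h1 : ‖φ (zt p k K)‖ = 1 := ((zs (p := p) (k := k) (K := K)).map_of_injective
        φ.injective).norm'_eq_one hq0.ne'
      have h2 : φ (X l (zt p k K)⁻¹) = starRingEnd ℂ (φ (X l (zt p k K))) := by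
        rw [map_X, map_X, map_X, map_inv₀, Complex.inv_eq_conj h1]
      have h3 := congrArg (fun t => ‖φ t‖) huK
      simp only [map_mul, norm_mul, h2, Complex.norm_conj] at h3
      have h4 : ‖φ (X l (zt p k K))‖ ≠ 0 := by simpa using hx0
      exact mul_left_cancel₀ h4 (h3.trans (mul_one _).symm))
  obtain ⟨r, hr⟩ := (zs (p := p) (k := k) (K := K)).exists_neg_pow_of_isOfFinOrder hodd
    (isOfFinOrder_iff_pow_eq_one.2 ⟨n, hn, hun⟩)
  exact ⟨r, by rw [← hr, ← h, mul_assoc, huK, sq]⟩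

theorem no_i (k : ℕ) [IsCyclotomicExtension {p ^ (k + 1)} ℚ K] (hp2 : p ≠ 2) (y : K) : y ^ 2 ≠ -1 := by
  intro h
  have : NumberField K := IsCyclotomicExtension.numberField {p ^ (k + 1)} ℚ K
  have hodd : Odd (p ^ (k + 1)) := (hp.out.odd_of_ne_two hp2).pow
  obtain ⟨r, hr⟩ := (zs (p := p) (k := k) (K := K)).exists_neg_pow_of_isOfFinOrder hodd
    (x := y) (isOfFinOrder_iff_pow_eq_one.2 ⟨4, by norm_num, by
      rw [show 4 = 2 * 2 from rfl, pow_mul, h]; norm_num⟩)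
  have h2 := congrArg (· ^ p ^ (k + 1)) h
  simp only [hodd.neg_one_pow] at h2
  rw [hr, ← pow_mul, ← pow_mul, mul_comm 2, mul_comm r, mul_comm _ 2, mul_assoc, pow_mul,
    neg_sq, ← pow_mul, mul_comm 2, mul_assoc, pow_mul, zs.pow_eq_one, one_pow] at h2
  norm_num at h2

open Classical in
theorem four (hp2 : p ≠ 2) {ι : Type*} [Fintype ι] (l : ι → ℕ) {b : ℕ}
    (h : X l (zt p k K) * X l (zt p k K)⁻¹ = (p : K) ^ b) :
    X l (zt p k K) ^ 4 = ((if ∃ y : K, y ^ 2 = (p : K) ^ b then 1 else -1 : ℤ) : K) * (p : K) ^ b *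
      X l ((zt p k K) ^ 2) ^ 2 := by
  obtain ⟨r, hr⟩ := sq_eq hp2 l h
  obtain ⟨j, hj⟩ : Odd (p ^ (k + 1)) := (hp.out.odd_of_ne_two hp2).pow
  obtain ⟨σ, hσ⟩ := sig (k := k) (K := K)
    ((Nat.coprime_primes Nat.prime_two hp.out).2 (Ne.symm hp2))
  have h2 := congrArg σ hr
  rw [map_pow, map_X, hσ, map_mul, map_pow, map_natCast, map_pow, map_neg, hσ] at h2
  have hy : (X l (zt p k K) * (zt p k K) ^ (j * r)) ^ 2 = (p : K) ^ b * (-1) ^ r := by
    have : (zt p k K) ^ r * ((zt p k K) ^ (j * r)) ^ 2 = 1 := by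
      rw [← pow_mul, ← pow_add, show r + j * r * 2 = (2 * j + 1) * r by ring, ← hj, pow_mul,
        zs.pow_eq_one, one_pow]
    rw [mul_pow, hr, neg_pow, mul_assoc, mul_assoc, this, mul_one]
  have hp0 : (p : K) ^ b ≠ 0 := pow_ne_zero _ (Nat.cast_ne_zero.2 hp.out.ne_zero)
  have he : ((if ∃ y : K, y ^ 2 = (p : K) ^ b then 1 else -1 : ℤ) : K) = (-1) ^ r := by
    rcases Nat.even_or_odd r with e | e
    · rw [e.neg_one_pow] at hy ⊢
      rw [if_pos ⟨_, hy.trans (mul_one _)⟩]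
      simp
    · rw [e.neg_one_pow] at hy ⊢
      rw [if_neg]
      · simp
      · rintro ⟨y, hy'⟩
        apply no_i k hp2 (X l (zt p k K) * (zt p k K) ^ (j * r) / y)
        rw [div_pow, hy, hy']
        field_simp
  rw [he, h2, show 4 = 2 * 2 from rfl, pow_mul, hr, neg_pow, neg_pow ((zt p k K) ^ 2), ← pow_mul,
    mul_comm 2 r, pow_mul]
  ring

theorem shift (hp2 : p ≠ 2) (hk : 1 ≤ k) {ι : Type*} [Fintype ι] (l : ι → ℕ) {b : ℕ}
    (h : X l (zt p k K) * X l (zt p k K)⁻¹ = (p : K) ^ b) (a a' : ℕ) (ha : p ∣ a + a') :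
    X l ((zt p k K) ^ (1 + a * p ^ k)) * X l ((zt p k K) ^ (1 + a' * p ^ k)) = X l (zt p k K) ^ 2 := by
  obtain ⟨r, hr⟩ := sq_eq hp2 l h
  obtain ⟨j, hj⟩ : Odd p := hp.out.odd_of_ne_two hp2
  obtain ⟨k', rfl⟩ : ∃ k', k = k' + 1 := ⟨k - 1, by omega⟩
  set m := p ^ (k' + 1) with hm
  have h1 : (zt p (k' + 1) K) ^ (m * p) = 1 := by
    rw [hm, ← pow_succ]; exact zs.pow_eq_one
  obtain ⟨σ, hσ⟩ := sig (k := k' + 1) (K := K) (s := 1 + m) (by
    rw [hm, pow_succ]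
    exact (Nat.coprime_add_mul_right_left 1 p _).2 (by simp))
  set z := zt p (k' + 1) K with hz
  have hmm : z ^ (m * m) = 1 := by
    have : m * m = m * p * p ^ k' := by rw [hm]; ring
    rw [this, pow_mul, h1, one_pow]
  have hp0 : (p : K) ^ b ≠ 0 := pow_ne_zero _ (Nat.cast_ne_zero.2 hp.out.ne_zero)
  have hx0 : X l z ≠ 0 := fun e => hp0 (by rw [← h, e, zero_mul])
  have hw : σ (z ^ m) = z ^ m := by
    rw [map_pow, hσ, ← pow_mul, add_mul, pow_add, hmm, one_mul, mul_one]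
  set w := (z ^ m) ^ (r * (j + 1)) with hwd
  have hw2 : w ^ 2 = (z ^ m) ^ r := by
    rw [hwd, ← pow_mul, show r * (j + 1) * 2 = r + (2 * j + 1) * r by ring, ← hj, pow_add,
      pow_mul, ← pow_mul z m p, h1, one_pow, mul_one]
  have h2 : σ (X l z) ^ 2 = (w * X l z) ^ 2 := by
    rw [← map_pow, mul_pow, hw2, hr, map_mul, map_pow, map_natCast, map_pow, map_neg, hσ,
      pow_add, pow_one, ← neg_mul, mul_pow]
    ring
  obtain ⟨η, hη, hη'⟩ : ∃ η : K, σ η = η ∧ σ (X l z) = η * X l z := by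
    have hσw : σ w = w := by rw [hwd, map_pow, hw]
    rcases sq_eq_sq_iff_eq_or_eq_neg.1 h2 with e | e
    · exact ⟨w, hσw, e⟩
    · exact ⟨-w, by rw [map_neg, hσw], by rw [e, neg_mul]⟩
  have key : ∀ c : ℕ, X l (z ^ (1 + c * m)) = η ^ c * X l z := by
    intro c
    induction c with
    | zero => simp
    | succ c ih =>
      have := congrArg σ ih
      rw [map_X, map_pow, hσ, map_mul, map_pow, hη, hη', ← pow_mul,
        show (1 + m) * (1 + c * m) = 1 + (c + 1) * m + m * m * c by ring, pow_add, pow_mul z (m * m),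
        hmm, one_pow, mul_one] at this
      rw [this]
      ring
  have hηp : η ^ p = 1 := by
    have := key p
    rw [pow_add, mul_comm p m, h1, pow_one, mul_one] at this
    exact (mul_eq_right₀ hx0).1 this.symm
  obtain ⟨c, hc⟩ := ha
  rw [key, key, mul_mul_mul_comm, ← pow_add, hc, pow_mul, hηp, one_pow, one_mul, sq]

theorem cycK (b : ℕ) (hp2 : p ≠ 2) (hk : 1 ≤ k) (ι : Type*) [Fintype ι] (φ : K →+* ℂ) :
    ∃ (ω : ℂ) (ε : ℤ), IsPrimitiveRoot ω (p ^ (k + 1)) ∧ ∀ l : ι → ℕ,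
      (X l ω = 0 → ∀ s, Nat.Coprime s p → X l (ω ^ s) = 0) ∧
      (X l ω * X l ω⁻¹ = (p : ℂ) ^ b → X l ω ^ 4 = ε * (p : ℂ) ^ b * X l (ω ^ 2) ^ 2 ∧
        ∀ a a', p ∣ a + a' →
          X l (ω ^ (1 + a * p ^ k)) * X l (ω ^ (1 + a' * p ^ k)) = X l ω ^ 2) := by
  classical
  refine ⟨φ (zt p k K), if ∃ y : K, y ^ 2 = (p : K) ^ b then 1 else -1,
    zs.map_of_injective φ.injective, fun l => ⟨fun h s hs => ?_, fun h => ?_⟩⟩
  · obtain ⟨σ, hσ⟩ := sig (k := k) (K := K) hs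
    rw [← map_X, map_eq_zero] at h
    rw [← map_pow, ← map_X, ← hσ, ← map_X, h, map_zero, map_zero]
  · have h' : X l (zt p k K) * X l (zt p k K)⁻¹ = (p : K) ^ b := by
      apply φ.injective
      rw [map_mul, map_X, map_X, map_inv₀, h, map_pow, map_natCast]
    constructor
    · have := congrArg φ (four hp2 l h')
      rwa [map_pow, map_mul, map_mul, map_pow, map_pow, map_X, map_X, map_pow, map_intCast,
        map_natCast] at this
    · intro a a' ha
      have := congrArg φ (shift hp2 hk l h' a a' ha)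
      rwa [map_pow, map_mul, map_X, map_X, map_X, map_pow, map_pow] at this

end K

theorem cyc (p k b : ℕ) (hp : p.Prime) (hp2 : p ≠ 2) (hk : 1 ≤ k) (ι : Type*) [Fintype ι] :
    ∃ (ω : ℂ) (ε : ℤ), IsPrimitiveRoot ω (p ^ (k + 1)) ∧ ∀ l : ι → ℕ,
      (X l ω = 0 → ∀ s, Nat.Coprime s p → X l (ω ^ s) = 0) ∧
      (X l ω * X l ω⁻¹ = (p : ℂ) ^ b → X l ω ^ 4 = ε * (p : ℂ) ^ b * X l (ω ^ 2) ^ 2 ∧
        ∀ a a', p ∣ a + a' →
          X l (ω ^ (1 + a * p ^ k)) * X l (ω ^ (1 + a' * p ^ k)) = X l ω ^ 2) := by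
  have := Fact.mk hp
  have : IsCyclotomicExtension {p ^ (k + 1)} ℚ (CyclotomicField (p ^ (k + 1)) ℚ) :=
    CyclotomicField.isCyclotomicExtension (p ^ (k + 1)) ℚ
  exact cycK (K := CyclotomicField (p ^ (k + 1)) ℚ) b hp2 hk ι
    (IsAlgClosed.lift (R := ℚ) (S := CyclotomicField (p ^ (k + 1)) ℚ) (M := ℂ)).toRingHom

end Pool.Agent.P.MP_d5661c_co.Ab
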