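import Mathlib
import Pool.Agent.P.MP_d5661c_co.Ab.Cyc

/-! Group ring identities for abelian relative difference sets. -/

set_option autoImplicit false

namespace Pool.Agent.P.MP_d5661c_co.Ab

open Finset

variable {A : Type*} [AddCommGroup A] [Fintype A] [DecidableEq A] {ι : Type*} [Fintype ι]
  [DecidableEq ι]

/-- a relative difference set, listed by a map -/
structure RDS (N : AddSubgroup A) [DecidablePred (· ∈ N)] (s : ι → A) (n : ℕ) : Prop where
  cA : Fintype.card A = n ^ 2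
  cN : #(univ.filter (· ∈ N)) = n
  cι : Fintype.card ι = n
  inj : Function.Injective s
  r : ∀ g, g ≠ 0 → #(univ.filter fun μ : ι × ι => s μ.1 - s μ.2 = g) = if g ∈ N then 0 else 1

omit [DecidableEq ι] [Fintype ι] [AddCommGroup A] in
theorem sum_fib {R κ : Type*} [Semiring R] [Fintype κ] (u : κ → A) (F : A → R) :
    ∑ i, F (u i) = ∑ g, (#(univ.filter fun i => u i = g) : R) * F g := by
  rw [← sum_fiberwise' univ u F]
  simp

omit [DecidableEq ι] [Fintype ι] in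
theorem cnt_char {κ : Type*} [Fintype κ] (u : κ → A) (x : A) :
    ∑ ψ : AddChar A ℂ, ψ (-x) * ∑ i, ψ (u i) =
      (Fintype.card A : ℂ) * #(univ.filter fun i => u i = x) := by
  simp only [mul_sum, ← AddChar.map_add_eq_mul]
  rw [sum_comm]
  simp only [AddChar.sum_apply_eq_ite, neg_add_eq_zero, card_filter, Nat.cast_sum, mul_sum]
  refine sum_congr rfl fun i _ => ?_
  by_cases e : u i = x
  · simp [e]
  · simp [e, Ne.symm e]

namespace RDS

variable {N : AddSubgroup A} [DecidablePred (· ∈ N)] {s : ι → A} {n : ℕ} (h : RDS N s n)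
include h

theorem r0 : #(univ.filter fun μ : ι × ι => s μ.1 - s μ.2 = 0) = n := by
  have : (univ.filter fun μ : ι × ι => s μ.1 - s μ.2 = 0) = univ.image fun i => (i, i) := by
    ext ⟨i, j⟩
    simp only [mem_filter, mem_univ, true_and, sub_eq_zero, h.inj.eq_iff, mem_image,
      Prod.mk.injEq]
    exact ⟨fun e => ⟨i, rfl, e⟩, fun ⟨a, e1, e2⟩ => e1.symm.trans e2⟩
  rw [this, card_image_of_injective _ fun a b e => (Prod.mk.inj e).1, card_univ, h.cι]

theorem sumr {R : Type*} [Ring R] (F : A → R) :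
    ∑ μ : ι × ι, F (s μ.1 - s μ.2) = n * F 0 + ∑ g, F g - ∑ g with g ∈ N, F g := by
  rw [sum_fib (fun μ : ι × ι => s μ.1 - s μ.2), sum_filter, add_sub_assoc, ← sum_sub_distrib]
  have : (n : R) * F 0 = ∑ g, if g = 0 then n * F g else 0 := by simp
  rw [this, ← sum_add_distrib]
  refine sum_congr rfl fun g _ => ?_
  by_cases e : g = 0
  · subst e
    simp [h.r0, N.zero_mem]
  · rw [h.r g e]
    by_cases e2 : g ∈ N <;> simp [e, e2]

omit [DecidableEq ι] in
theorem sidon {μ ν : ι × ι} (e : s μ.1 + s μ.2 = s ν.1 + s ν.2) : μ = ν ∨ μ = ν.swap := by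
  by_cases e0 : s μ.1 - s ν.1 = 0
  · left
    rw [sub_eq_zero] at e0
    rw [e0, add_right_inj] at e
    exact Prod.ext (h.inj e0) (h.inj e)
  · right
    have h1 : #(univ.filter fun t : ι × ι => s t.1 - s t.2 = s μ.1 - s ν.1) ≤ 1 := by
      rw [h.r _ e0]; split_ifs <;> simp
    have := card_le_one.1 h1 (μ.1, ν.1) (by simp) (ν.2, μ.2) (by
      simp only [mem_filter, mem_univ, true_and]
      rw [sub_eq_sub_iff_add_eq_add, e, add_comm])
    exact Prod.ext (Prod.mk.inj this).1 (Prod.mk.inj this).2.symm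

theorem chars {p k b : ℕ} (hp : p.Prime) (hp2 : p ≠ 2) (hk : 1 ≤ k) (hn : n = p ^ b)
    (hA : ∀ a : A, p ^ (k + 1) • a = 0) :
    ∃ ε : ℤ, ∀ ψ : AddChar A ℂ,
      (ψ ≠ 0 → (∑ i, ψ (s i)) ^ 4 = ε * n * (∑ i, ψ (2 • s i)) ^ 2) ∧
      ∀ a a', p ∣ a + a' → (∑ i, ψ ((1 + a * p ^ k) • s i)) * ∑ i, ψ ((1 + a' * p ^ k) • s i) =
        (∑ i, ψ (s i)) ^ 2 := by
  obtain ⟨ω, ε, hω, H⟩ := cyc p k b hp hp2 hk ι
  refine ⟨ε, fun ψ => ?_⟩
  by_cases h0 : ψ = 0
  · subst h0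
    exact ⟨fun e => absurd rfl e, fun a a' _ => by simp [sq]⟩
  have : NeZero (p ^ (k + 1)) := ⟨pow_ne_zero _ hp.ne_zero⟩
  have hl : ∀ i, ∃ l : ℕ, ω ^ l = ψ (s i) := fun i => by
    obtain ⟨l, -, hl⟩ := hω.eq_pow_of_pow_eq_one (ξ := ψ (s i))
      (by rw [← AddChar.map_nsmul_eq_pow, hA, AddChar.map_zero_eq_one])
    exact ⟨l, hl⟩
  choose l hl using hl
  have h1 : ∀ c : ℕ, ∑ i, ψ (c • s i) = X l (ω ^ c) := fun c =>
    sum_congr rfl fun i _ => by rw [AddChar.map_nsmul_eq_pow, ← hl, ← pow_mul, ← pow_mul, mul_comm]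
  have h2 : ∑ i, ψ (s i) = X l ω := by simpa using h1 1
  have h3 : X l ω⁻¹ = ∑ i, ψ (-s i) :=
    sum_congr rfl fun i _ => by rw [AddChar.map_neg_eq_inv, ← hl, inv_pow]
  have h4 : X l ω * X l ω⁻¹ = n - ∑ g with g ∈ N, ψ g := by
    have := h.sumr (fun g => ψ g)
    rw [AddChar.sum_eq_zero_iff_ne_zero.2 h0, AddChar.map_zero_eq_one, mul_one, add_zero] at this
    rw [← this, ← h2, h3, sum_mul_sum, Fintype.sum_prod_type]
    simp only [← AddChar.map_add_eq_mul, sub_eq_add_neg]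
  simp only [h1, h2]
  by_cases h5 : ∀ g ∈ N, ψ g = 1
  · rw [sum_congr rfl fun g hg => h5 g (mem_filter.1 hg).2, sum_const, h.cN, nsmul_one,
      sub_self] at h4
    have h6 : X l ω = 0 := by
      rw [h3] at h4
      simp only [AddChar.map_neg_eq_conj] at h4
      rw [← map_sum, h2, Complex.mul_conj] at h4
      simpa using h4
    have hc : ∀ a, Nat.Coprime (1 + a * p ^ k) p := fun a => by
      obtain ⟨k', rfl⟩ : ∃ k', k = k' + 1 := ⟨k - 1, by omega⟩
      rw [pow_succ, ← mul_assoc]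
      exact (Nat.coprime_add_mul_right_left 1 p _).2 (by simp)
    refine ⟨fun _ => ?_, fun a a' _ => ?_⟩
    · rw [h6, (H l).1 h6 2 ((Nat.coprime_primes Nat.prime_two hp).2 (Ne.symm hp2))]
      simp
    · rw [(H l).1 h6 _ (hc a), h6]
      simp
  · push Not at h5
    obtain ⟨g, hg, hg1⟩ := h5
    have h6 : ∑ g with g ∈ N, ψ g = 0 := by
      have : ∑ t with t ∈ N, ψ t = ψ g * ∑ t with t ∈ N, ψ t := by
        rw [mul_sum]
        refine (sum_equiv (Equiv.addLeft g) (fun t => ?_) fun t _ => ?_).symm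
        · simp [N.add_mem_cancel_left hg]
        · simp [AddChar.map_add_eq_mul]
      by_contra e
      exact hg1 ((mul_eq_right₀ e).1 this.symm)
    rw [h6, sub_zero, hn, Nat.cast_pow] at h4
    obtain ⟨e1, e2⟩ := (H l).2 h4
    exact ⟨fun _ => by rw [e1, hn, Nat.cast_pow], e2⟩

theorem shift {p k b : ℕ} (hp : p.Prime) (hp2 : p ≠ 2) (hk : 1 ≤ k) (hn : n = p ^ b)
    (hA : ∀ a : A, p ^ (k + 1) • a = 0) (a : ℕ) (x : A) :
    #(univ.filter fun μ : ι × ι => s μ.1 + s μ.2 + a • p ^ k • (s μ.1 - s μ.2) = x) =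
      #(univ.filter fun μ : ι × ι => s μ.1 + s μ.2 = x) := by
  obtain ⟨ε, H⟩ := h.chars hp hp2 hk hn hA
  have hc : (Fintype.card A : ℂ) ≠ 0 := Nat.cast_ne_zero.2 Fintype.card_ne_zero
  apply Nat.cast_injective (R := ℂ)
  apply mul_left_cancel₀ hc
  rw [← cnt_char, ← cnt_char]
  refine sum_congr rfl fun ψ _ => ?_
  congr 1
  obtain ⟨q, rfl⟩ : ∃ q, p = q + 1 := ⟨p - 1, by have := hp.pos; omega⟩
  have := (H ψ).2 a (q * a) ⟨a, by ring⟩
  rw [sq, sum_mul_sum, sum_mul_sum] at this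
  simp only [Fintype.sum_prod_type, ← AddChar.map_add_eq_mul] at this ⊢
  rw [← this]
  refine sum_congr rfl fun i _ => sum_congr rfl fun j _ => ?_
  congr 1
  have h0 := hA (a • s j)
  rw [pow_succ] at h0
  rw [← sub_eq_zero, ← neg_eq_zero, ← h0]
  module

theorem four_dvd {p k b : ℕ} (hp : p.Prime) (hp2 : p ≠ 2) (hk : 1 ≤ k) (hn : n = p ^ b)
    (hA : ∀ a : A, p ^ (k + 1) • a = 0) (x : A) :
    n ∣ #(univ.filter fun μ : (ι × ι) × ι × ι =>
      s μ.1.1 + s μ.1.2 + (s μ.2.1 + s μ.2.2) = x) := by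
  obtain ⟨ε, H⟩ := h.chars hp hp2 hk hn hA
  have hn0 : (n : ℂ) ≠ 0 := by rw [hn]; exact Nat.cast_ne_zero.2 (pow_ne_zero _ hp.ne_zero)
  have h1 := cnt_char (fun μ : (ι × ι) × ι × ι => s μ.1.1 + s μ.1.2 + (s μ.2.1 + s μ.2.2)) x
  have h2 := cnt_char (fun μ : ι × ι => 2 • s μ.1 + 2 • s μ.2) x
  have e1 : ∀ ψ : AddChar A ℂ, ∑ μ : (ι × ι) × ι × ι,
      ψ (s μ.1.1 + s μ.1.2 + (s μ.2.1 + s μ.2.2)) = (∑ i, ψ (s i)) ^ 4 := fun ψ => by
    rw [show 4 = 2 * 2 from rfl, pow_mul, sq, sq, sum_mul_sum, ← Fintype.sum_prod_type',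
      sum_mul_sum, ← Fintype.sum_prod_type']
    simp only [AddChar.map_add_eq_mul]
  have e2 : ∀ ψ : AddChar A ℂ, ∑ μ : ι × ι, ψ (2 • s μ.1 + 2 • s μ.2) =
      (∑ i, ψ (2 • s i)) ^ 2 := fun ψ => by
    rw [sq, sum_mul_sum, ← Fintype.sum_prod_type']
    simp only [AddChar.map_add_eq_mul]
  simp only [e1, e2, h.cA] at h1 h2
  classical
  rw [← add_sum_erase _ _ (mem_univ 0)] at h1 h2
  have h3 : ∑ ψ ∈ (univ : Finset (AddChar A ℂ)).erase 0, ψ (-x) * (∑ i, ψ (s i)) ^ 4 =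
      ε * n * ∑ ψ ∈ (univ : Finset (AddChar A ℂ)).erase 0, ψ (-x) * (∑ i, ψ (2 • s i)) ^ 2 := by
    rw [mul_sum]
    exact sum_congr rfl fun ψ hψ => by rw [(H ψ).1 (ne_of_mem_erase hψ), mul_left_comm]
  rw [h3, eq_sub_of_add_eq' h2] at h1
  simp only [AddChar.zero_apply, sum_const, card_univ, h.cι, nsmul_one, one_mul] at h1
  rw [← Int.natCast_dvd_natCast]
  refine ⟨ε * #(univ.filter fun μ : ι × ι => 2 • s μ.1 + 2 • s μ.2 = x) + n - ε, ?_⟩
  apply Int.cast_injective (α := ℂ)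
  apply mul_left_cancel₀ (pow_ne_zero 2 hn0)
  push_cast at h1 ⊢
  linear_combination -h1

/-- no element is alone in its class -/
theorem partner {p k b : ℕ} (hp : p.Prime) (hp2 : p ≠ 2) (hk : 1 ≤ k) (hb : 1 ≤ b)
    (hn : n = p ^ b) (hA : ∀ a : A, p ^ (k + 1) • a = 0) (i : ι) :
    ∃ j, j ≠ i ∧ p ^ k • s j = p ^ k • s i := by
  have := Fact.mk hp
  have : CharP (AddMonoidAlgebra (ZMod p) A) p :=
    charP_of_injective_algebraMap (algebraMap (ZMod p) _).injective p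
  have co : ∀ {κ : Type _} [Fintype κ] (u : κ → A) (x : A),
      (∑ t, AddMonoidAlgebra.single (u t) (1 : ZMod p)).coeff x =
        (#(univ.filter fun t => u t = x) : ZMod p) := fun u x => by
    rw [AddMonoidAlgebra.coeff_sum, Finsupp.finsetSum_apply]
    simp only [AddMonoidAlgebra.coeff_single, Finsupp.single_apply, sum_boole]
  set D : AddMonoidAlgebra (ZMod p) A := ∑ t, AddMonoidAlgebra.single (s t) 1 with hD
  have h4 : D ^ 4 = 0 := by
    rw [show 4 = 2 * 2 from rfl, pow_mul, sq, sq, hD, sum_mul_sum, ← Fintype.sum_prod_type',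
      sum_mul_sum, ← Fintype.sum_prod_type']
    simp only [AddMonoidAlgebra.single_mul_single, mul_one]
    apply AddMonoidAlgebra.coeff_injective
    ext x
    rw [co (fun μ : (ι × ι) × ι × ι => s μ.1.1 + s μ.1.2 + (s μ.2.1 + s μ.2.2))]
    refine (ZMod.natCast_eq_zero_iff _ _).2 (dvd_trans ?_ (h.four_dvd hp hp2 hk hn hA x))
    rw [hn]
    exact dvd_pow_self p (by omega)
  have h5 : D ^ p ^ k * D = 0 := by
    have : 3 ≤ p ^ k := by
      have := hp.two_le
      exact (show 3 ≤ p by omega).trans (Nat.le_self_pow (by omega) p)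
    obtain ⟨c, hc⟩ := Nat.exists_eq_add_of_le this
    rw [← pow_succ, hc, show 3 + c + 1 = 4 + c by ring, pow_add, h4, zero_mul]
  rw [hD, sum_pow_char_pow, sum_mul_sum, ← Fintype.sum_prod_type'] at h5
  simp only [AddMonoidAlgebra.single_pow, AddMonoidAlgebra.single_mul_single, one_pow,
    mul_one] at h5
  have h6 := co (fun μ : ι × ι => p ^ k • s μ.1 + s μ.2) (p ^ k • s i + s i)
  rw [h5] at h6
  by_contra hc
  push Not at hc
  have hc' : ∀ j, p ^ k • s j = p ^ k • s i → j = i := fun j e => by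
    by_contra e'
    exact hc j e' e
  have hmm : ∀ a : A, p ^ k • p ^ k • a = 0 := fun a => by
    obtain ⟨k', rfl⟩ : ∃ k', k = k' + 1 := ⟨k - 1, by omega⟩
    rw [← hA (p ^ k' • a), smul_smul, smul_smul]
    congr 1
    ring
  have h7 : (univ.filter fun μ : ι × ι => p ^ k • s μ.1 + s μ.2 = p ^ k • s i + s i) =
      {(i, i)} := by
    ext ⟨a, c⟩
    simp only [mem_filter, mem_univ, true_and, mem_singleton, Prod.mk.injEq]
    constructor
    · intro e
      have e2 := congrArg (p ^ k • ·) e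
      simp only [smul_add, hmm, zero_add] at e2
      obtain rfl := hc' c e2
      exact ⟨hc' a (add_right_cancel e), rfl⟩
    · rintro ⟨rfl, rfl⟩
      rfl
  rw [h7] at h6
  simp at h6

end RDS

end Pool.Agent.P.MP_d5661c_co.Ab
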