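import Mathlib
import Pool.Agent.P.MP_d5661c_co.Ab.Four

/-! Moment counts for abelian relative difference sets. -/

set_option autoImplicit false

namespace Pool.Agent.P.MP_d5661c_co.Ab

open Finset

/-- integer indicator -/
def ind (P : Prop) [Decidable P] : ℤ := if P then 1 else 0

theorem ind_congr {P Q : Prop} [Decidable P] [Decidable Q] (h : P ↔ Q) : ind P = ind Q := by
  simp [ind, h]

theorem ind_and (P Q : Prop) [Decidable P] [Decidable Q] : ind (P ∧ Q) = ind P * ind Q := by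
  by_cases h : P <;> simp [ind, h]

theorem sum_ind {κ : Type*} (t : Finset κ) (P : κ → Prop) [DecidablePred P] :
    ∑ i ∈ t, ind (P i) = #(t.filter P) := by
  simp [ind]

theorem sum_filter_ind {κ : Type*} (t : Finset κ) (P : κ → Prop) [DecidablePred P] (f : κ → ℤ) :
    ∑ i ∈ t.filter P, f i = ∑ i ∈ t, ind (P i) * f i := by
  simp [ind, sum_filter]

variable {A : Type*} [AddCommGroup A] [Fintype A] [DecidableEq A] {ι : Type*} [Fintype ι]
  [DecidableEq ι]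

/-- the order of a subgroup -/
def cd (S : AddSubgroup A) [DecidablePred (· ∈ S)] : ℕ := #(univ.filter (· ∈ S))

/-- the order of an intersection -/
def cd2 (S T : AddSubgroup A) [DecidablePred (· ∈ S)] [DecidablePred (· ∈ T)] : ℕ :=
  #(univ.filter fun a => a ∈ S ∧ a ∈ T)

section

omit [DecidableEq A]

variable (Z : AddSubgroup A) [DecidablePred (· ∈ Z)]

theorem tr1 (a : A) : ∑ x, ind (a - x ∈ Z) = cd Z := by
  rw [cd, ← sum_ind]
  exact Fintype.sum_equiv (Equiv.subLeft a) _ _ fun x => rfl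

theorem tr2 (a : A) : ∑ x, ind (x - a ∈ Z) = cd Z := by
  rw [← tr1 Z a]
  exact sum_congr rfl fun x _ => ind_congr (by rw [← Z.neg_mem_iff, neg_sub])

theorem tr3 (a b : A) :
    ∑ x, ind (a - x ∈ Z) * ind (b - x ∈ Z) = cd Z * ind (a - b ∈ Z) := by
  rw [← tr1 Z a, sum_mul]
  refine sum_congr rfl fun x _ => ?_
  rw [← ind_and, ← ind_and]
  refine ind_congr (and_congr_right fun h => ⟨fun h2 => ?_, fun h2 => ?_⟩)
  · simpa using Z.sub_mem h h2
  · simpa using Z.sub_mem h h2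

variable (N : AddSubgroup A) [DecidablePred (· ∈ N)]

theorem tr4 {g : A} (hg : g ∈ N) : ∑ t with t ∈ N, ind (g - t ∈ Z) = cd2 N Z := by
  rw [cd2, ← sum_ind, sum_filter_ind]
  refine Fintype.sum_equiv (Equiv.subLeft g) _ _ fun x => ?_
  rw [← ind_and]
  refine ind_congr (and_congr_left fun _ => ⟨fun h => N.sub_mem hg h, fun h => ?_⟩)
  simpa using N.sub_mem hg h

end

namespace RDS

variable {N : AddSubgroup A} [DecidablePred (· ∈ N)] {s : ι → A} {n : ℕ} (h : RDS N s n)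
  (Z W : AddSubgroup A) [DecidablePred (· ∈ Z)] [DecidablePred (· ∈ W)]
include h

theorem c1 : ∑ μ : ι × ι, ind (s μ.1 - s μ.2 ∈ W) = n + cd W - cd2 N W := by
  rw [h.sumr fun g => ind (g ∈ W), sum_ind, sum_ind, filter_filter]
  simp [ind, W.zero_mem, cd, cd2]

theorem c2 (hZ : Z ≤ W) :
    ∑ μ : ι × ι, ∑ ν : ι × ι,
      ind (s μ.1 - s μ.2 ∈ W) * ind (s μ.1 - s μ.2 - (s ν.1 - s ν.2) ∈ Z) =
    n ^ 2 + 2 * n * cd Z - 2 * n * cd2 N Z + cd Z * cd W - 2 * cd2 N W * cd Z +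
      cd2 N W * cd2 N Z := by
  have G : ∀ g : A, ∑ ν : ι × ι, ind (g - (s ν.1 - s ν.2) ∈ Z) =
      n * ind (g ∈ Z) + cd Z - ∑ t with t ∈ N, ind (g - t ∈ Z) := fun g => by
    rw [h.sumr fun t => ind (g - t ∈ Z), tr1, sub_zero]
  simp only [← mul_sum, G]
  rw [h.sumr fun g => ind (g ∈ W) *
    (n * ind (g ∈ Z) + cd Z - ∑ t with t ∈ N, ind (g - t ∈ Z))]
  have WZ : ∀ g, ind (g ∈ W) * ind (g ∈ Z) = ind (g ∈ Z) := fun g => by
    rw [← ind_and]
    exact ind_congr ⟨fun e => e.2, fun e => ⟨hZ e, e⟩⟩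
  have e1 : ∑ g, ind (g ∈ W) * (n * ind (g ∈ Z) + cd Z - ∑ t with t ∈ N, ind (g - t ∈ Z)) =
      n * cd Z + cd Z * cd W - cd2 N W * cd Z := by
    have a1 : ∑ g, ind (g ∈ W) * ∑ t with t ∈ N, ind (g - t ∈ Z) = cd2 N W * cd Z := by
      simp only [mul_sum]
      rw [sum_comm, cd2, ← filter_filter, ← sum_ind, sum_mul]
      refine sum_congr rfl fun t _ => ?_
      rw [← tr2 Z t, mul_sum]
      refine sum_congr rfl fun g _ => ?_
      rw [← ind_and, ← ind_and]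
      refine ind_congr (and_congr_left fun e => ⟨fun e2 => ?_, fun e2 => ?_⟩)
      · simpa using W.sub_mem e2 (hZ e)
      · simpa using W.add_mem e2 (hZ e)
    simp only [mul_sub, mul_add, sum_sub_distrib, sum_add_distrib, a1]
    simp only [mul_left_comm _ (n : ℤ), WZ, ← mul_sum, ← sum_mul, sum_ind]
    simp only [cd]
    ring
  have e2 : ∑ g with g ∈ N,
      ind (g ∈ W) * (n * ind (g ∈ Z) + cd Z - ∑ t with t ∈ N, ind (g - t ∈ Z)) =
      n * cd2 N Z + cd2 N W * cd Z - cd2 N W * cd2 N Z := by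
    rw [sum_congr rfl fun g hg => by rw [tr4 Z N (mem_filter.1 hg).2]]
    simp only [mul_sub, mul_add, sum_sub_distrib, sum_add_distrib, mul_left_comm _ (n : ℤ),
      WZ, ← mul_sum, ← sum_mul, sum_ind, filter_filter]
    simp only [cd2]
  rw [e1, e2, tr4 Z N N.zero_mem]
  simp only [ind, W.zero_mem, Z.zero_mem, if_true]
  ring

end RDS

/-- pairs whose sum lies in a coset -/
def MM (s : ι → A) (Z : AddSubgroup A) [DecidablePred (· ∈ Z)] (x : A) : Finset (ι × ι) :=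
  univ.filter fun μ => s μ.1 + s μ.2 - x ∈ Z

/-- pairs of such pairs with congruent first entries -/
def UU (s : ι → A) (Z W : AddSubgroup A) [DecidablePred (· ∈ Z)] [DecidablePred (· ∈ W)]
    (x : A) : ℕ :=
  #((MM s Z x ×ˢ MM s Z x).filter fun μ => s μ.1.1 - s μ.2.1 ∈ W)

namespace RDS

variable {N : AddSubgroup A} [DecidablePred (· ∈ N)] {s : ι → A} {n : ℕ} (h : RDS N s n)
  (Z W : AddSubgroup A) [DecidablePred (· ∈ Z)] [DecidablePred (· ∈ W)]
include h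

omit [DecidableEq ι] in
theorem s1 : ∑ x, (#(MM s Z x) : ℤ) = cd Z * n ^ 2 := by
  simp only [MM, ← sum_ind]
  rw [sum_comm]
  simp [tr1, h.cι]
  ring

theorem s0 : ∑ x, (#((MM s Z x).filter fun μ => s μ.1 - s μ.2 ∈ W) : ℤ) =
    cd Z * (n + cd W - cd2 N W) := by
  simp only [MM, filter_filter, ← sum_ind, ind_and]
  rw [sum_comm, ← h.c1 W, mul_sum]
  simp only [← sum_mul, tr1]

theorem sU (hZ : Z ≤ W) : ∑ x, (UU s Z W x : ℤ) =
    cd Z * (n ^ 2 + 2 * n * cd Z - 2 * n * cd2 N Z + cd Z * cd W - 2 * cd2 N W * cd Z +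
      cd2 N W * cd2 N Z) := by
  rw [← h.c2 Z W hZ]
  have : ∀ x, (UU s Z W x : ℤ) = ∑ μ : (ι × ι) × ι × ι, ind (s μ.1.1 - s μ.2.1 ∈ W) *
      (ind (s μ.1.1 + s μ.1.2 - x ∈ Z) * ind (s μ.2.1 + s μ.2.2 - x ∈ Z)) := fun x => by
    simp only [← ind_and, sum_ind, UU, MM]
    congr 2
    ext μ
    simp [and_comm]
  simp only [this]
  rw [sum_comm, ← Fintype.sum_prod_type' fun μ ν : ι × ι =>
    ind (s μ.1 - s μ.2 ∈ W) * ind (s μ.1 - s μ.2 - (s ν.1 - s ν.2) ∈ Z), mul_sum]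
  refine Fintype.sum_equiv ⟨fun μ : (ι × ι) × ι × ι => ((μ.1.1, μ.2.1), (μ.2.2, μ.1.2)),
    fun μ : (ι × ι) × ι × ι => ((μ.1.1, μ.2.2), (μ.1.2, μ.2.1)), fun _ => rfl, fun _ => rfl⟩
    _ _ fun μ => ?_
  simp only [Equiv.coe_fn_mk]
  rw [← mul_sum, tr3, mul_left_comm]
  congr 2
  exact ind_congr (by congr! 1; abel)

theorem s2 : ∑ x, ((#(MM s Z x) : ℤ) - cd Z) ^ 2 = cd Z * (n ^ 2 - n * cd2 N Z) := by
  classical
  have h1 := h.sU Z ⊤ le_top
  have h2 : cd (⊤ : AddSubgroup A) = n ^ 2 := by simp [cd, h.cA]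
  have h3 : cd2 N ⊤ = n := by simp [cd2, h.cN]
  have h4 : ∀ x, (UU s Z ⊤ x : ℤ) = (#(MM s Z x) : ℤ) ^ 2 := fun x => by simp [UU, sq]
  simp only [h2, h3, h4] at h1
  simp only [sub_sq, sum_add_distrib, sum_sub_distrib, h1, mul_assoc, ← mul_sum, ← sum_mul,
    h.s1 Z, sum_const, card_univ, h.cA, nsmul_eq_mul]
  push_cast
  ring

end RDS

end Pool.Agent.P.MP_d5661c_co.Ab
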