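import Mathlib

/-! Weighted lines in the affine plane of odd prime order. -/

set_option autoImplicit false

namespace Pool.Agent.P.MP_d5661c_co.Ab

open Finset

variable {p : ℕ} [hp : Fact p.Prime]

/-- the determinant of two vectors -/
def dt (u v : ZMod p × ZMod p) : ZMod p := u.1 * v.2 - u.2 * v.1

theorem dt_add (u v w : ZMod p × ZMod p) : dt u (v + w) = dt u v + dt u w := by
  simp only [dt, Prod.fst_add, Prod.snd_add]; ring

theorem dt_sub (u v w : ZMod p × ZMod p) : dt u (v - w) = dt u v - dt u w := by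
  simp only [dt, Prod.fst_sub, Prod.snd_sub]; ring

theorem dt_smul (u v : ZMod p × ZMod p) (a : ZMod p) : dt u (a • v) = a * dt u v := by
  simp only [dt, Prod.smul_fst, Prod.smul_snd, smul_eq_mul]; ring

theorem smul_dt (u v : ZMod p × ZMod p) (a : ZMod p) : dt (a • u) v = a * dt u v := by
  simp only [dt, Prod.smul_fst, Prod.smul_snd, smul_eq_mul]; ring

theorem dt_self (u : ZMod p × ZMod p) : dt u u = 0 := by
  simp only [dt]; ring

theorem dt_swap (u v : ZMod p × ZMod p) : dt v u = -dt u v := by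
  simp only [dt]; ring

theorem par {u v : ZMod p × ZMod p} (hu : u ≠ 0) (h : dt u v = 0) : ∃ a : ZMod p, v = a • u := by
  unfold dt at h
  by_cases h1 : u.1 = 0
  · have h2 : u.2 ≠ 0 := fun e => hu (Prod.ext h1 e)
    refine ⟨v.2 / u.2, Prod.ext ?_ ?_⟩
    · rw [h1, zero_mul, zero_sub, neg_eq_zero, mul_eq_zero] at h
      simp [h1, h.resolve_left h2]
    · simp [h2]
  · refine ⟨v.1 / u.1, Prod.ext ?_ ?_⟩
    · simp [h1]
    · simp only [Prod.smul_snd, smul_eq_mul]
      field_simp
      linear_combination h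

theorem par_trans {u v w : ZMod p × ZMod p} (hw : w ≠ 0) (h1 : dt u w = 0) (h2 : dt v w = 0) :
    dt u v = 0 := by
  obtain ⟨a, rfl⟩ := par (v := u) hw (by rw [dt_swap, h1, neg_zero])
  obtain ⟨b, rfl⟩ := par (v := v) hw (by rw [dt_swap, h2, neg_zero])
  rw [dt_smul, smul_dt, dt_self, mul_zero, mul_zero]

theorem meet {u v : ZMod p × ZMod p} (h : dt u v ≠ 0) (c c' : ZMod p) :
    ∃ z, dt u z = c ∧ dt v z = c' := by
  refine ⟨(-c' / dt u v) • u + (c / dt u v) • v, ?_, ?_⟩
  · rw [dt_add, dt_smul, dt_smul, dt_self]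
    field_simp
    ring
  · rw [dt_add, dt_smul, dt_smul, dt_self, dt_swap u v]
    field_simp
    ring

theorem card_par {u : ZMod p × ZMod p} (hu : u ≠ 0) (x z : ZMod p × ZMod p) :
    #(univ.filter fun a : ZMod p => x + a • u = z) = if dt u (z - x) = 0 then 1 else 0 := by
  split_ifs with h
  · obtain ⟨a, ha⟩ := par hu h
    rw [card_eq_one]
    refine ⟨a, ext fun b => ?_⟩
    simp only [mem_filter, mem_univ, true_and, mem_singleton]
    constructor
    · intro e
      exact smul_left_injective _ hu (show b • u = a • u by rw [← ha, ← e]; abel)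
    · rintro rfl
      rw [← ha]; abel
  · rw [card_eq_zero, filter_eq_empty_iff]
    rintro a - rfl
    exact h (by rw [add_sub_cancel_left, dt_smul, dt_self, mul_zero])

theorem card_line {u : ZMod p × ZMod p} (hu : u ≠ 0) (c : ZMod p) :
    #(univ.filter fun z => dt u z = c) = p := by
  obtain ⟨v, hv⟩ : ∃ v, dt u v ≠ 0 := by
    by_contra h
    push Not at h
    have h1 := h (0, 1)
    have h2 := h (1, 0)
    simp only [dt, mul_one, mul_zero, sub_zero, zero_sub, neg_eq_zero] at h1 h2
    exact hu (Prod.ext h1 h2)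
  obtain ⟨x, hx, -⟩ := meet hv c 0
  have : (univ.filter fun z => dt u z = c) = univ.image fun a : ZMod p => x + a • u := by
    ext z
    simp only [mem_filter, mem_univ, true_and, mem_image]
    constructor
    · intro e
      obtain ⟨a, ha⟩ := par (v := z - x) hu (by rw [dt_sub, e, hx, sub_self])
      exact ⟨a, by rw [← ha]; abel⟩
    · rintro ⟨a, rfl⟩
      rw [dt_add, dt_smul, dt_self, hx, mul_zero, add_zero]
  rw [this, card_image_of_injective _ fun a b e => smul_left_injective _ hu (add_left_cancel e),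
    card_univ, ZMod.card]

/-- labelled points whose shifts along the labels cover a set twice -/
structure Cfg {ι : Type*} (M : Finset ι) (x d : ι → ZMod p × ZMod p) : Prop where
  ne : ∀ i ∈ M, d i ≠ 0
  two : ∀ z, #(M.filter fun i => x i = z) = 0 ∨ #(M.filter fun i => x i = z) = 2
  sh : ∀ (a : ZMod p) z, #(M.filter fun i => x i + a • d i = z) = #(M.filter fun i => x i = z)

namespace Cfg

variable {ι : Type*} {M : Finset ι} {x d : ι → ZMod p × ZMod p} (h : Cfg M x d)
include h

theorem thru (z : ZMod p × ZMod p) :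
    #(M.filter fun i => dt (d i) (z - x i) = 0) = p * #(M.filter fun i => x i = z) := by
  have h1 : ∑ a : ZMod p, #(M.filter fun i => x i + a • d i = z) =
      p * #(M.filter fun i => x i = z) := by
    simp only [h.sh, sum_const, card_univ, ZMod.card, smul_eq_mul]
  rw [← h1]
  simp only [card_filter]
  rw [sum_comm]
  refine sum_congr rfl fun i hi => ?_
  rw [← card_par (h.ne i hi), card_filter]

theorem on_line {i : ι} (hi : i ∈ M) {z : ZMod p × ZMod p} (hz : dt (d i) (z - x i) = 0) :
    #(M.filter fun i => x i = z) = 2 := by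
  refine (h.two z).resolve_left fun e => ?_
  have := h.thru z
  rw [e, mul_zero, card_eq_zero, filter_eq_empty_iff] at this
  exact this hi hz

omit h in
theorem fib (y : ι → ZMod p × ZMod p) (u : ZMod p × ZMod p) (c : ZMod p) :
    #(M.filter fun i => dt u (y i) = c) =
      ∑ z ∈ univ.filter fun z => dt u z = c, #(M.filter fun i => y i = z) := by
  rw [card_eq_sum_card_fiberwise (f := y) (t := univ.filter fun z => dt u z = c)
    (fun i hi => by simpa using (mem_filter.1 (mem_coe.1 hi)).2)]
  refine sum_congr rfl fun z hz => ?_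
  rw [filter_filter]
  congr 1
  refine filter_congr fun i _ => ⟨fun e => e.2, fun e => ⟨?_, e⟩⟩
  rw [e]; exact (mem_filter.1 hz).2

theorem line_sum (u : ZMod p × ZMod p) (c : ZMod p) :
    p * #(M.filter fun i => dt u (x i) = c) =
      p * #(M.filter fun i => dt u (d i) = 0 ∧ dt u (x i) = c) +
        #(M.filter fun i => dt u (d i) ≠ 0) := by
  have h1 : ∑ a : ZMod p, #(M.filter fun i => dt u (x i + a • d i) = c) =
      p * #(M.filter fun i => dt u (x i) = c) := by
    have : ∀ a : ZMod p, #(M.filter fun i => dt u (x i + a • d i) = c) =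
        #(M.filter fun i => dt u (x i) = c) := fun a => by
      rw [fib (fun i => x i + a • d i), fib x]
      exact sum_congr rfl fun z _ => h.sh a z
    simp only [this, sum_const, card_univ, ZMod.card, smul_eq_mul]
  rw [← h1]
  simp only [card_filter]
  rw [sum_comm, mul_sum, ← sum_add_distrib]
  refine sum_congr rfl fun i _ => ?_
  simp only [dt_add, dt_smul]
  by_cases e : dt u (d i) = 0
  · simp [e]
  · rw [← card_filter, if_neg (fun t => e t.1), if_pos e, mul_zero, zero_add, card_eq_one]
    refine ⟨(c - dt u (x i)) / dt u (d i), ext fun a => ?_⟩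
    simp only [mem_filter, mem_univ, true_and, mem_singleton]
    rw [eq_div_iff e, eq_sub_iff_add_eq']

theorem line_cnt {u : ZMod p × ZMod p} (hu : u ≠ 0) (c : ZMod p) :
    #(M.filter fun i => dt u (x i) = c) +
      2 * #(univ.filter fun z => dt u z = c ∧ #(M.filter fun i => x i = z) = 0) = 2 * p := by
  rw [fib x, ← filter_filter, card_filter _ (univ.filter fun z => dt u z = c), mul_sum,
    ← sum_add_distrib]
  conv_rhs => rw [← card_line hu c, card_eq_sum_ones, mul_sum]
  refine sum_congr rfl fun z _ => ?_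
  rcases h.two z with e | e <;> simp [e]

theorem tot : #M + 2 * #(univ.filter fun z => #(M.filter fun i => x i = z) = 0) = 2 * p ^ 2 := by
  rw [card_eq_sum_card_fiberwise (f := x) (s := M) (t := univ) (fun i _ => by simp),
    card_filter _ univ, mul_sum, ← sum_add_distrib]
  have : 2 * p ^ 2 = ∑ _z : ZMod p × ZMod p, 2 := by simp [sq, mul_comm]
  rw [this]
  refine sum_congr rfl fun z _ => ?_
  rcases h.two z with e | e <;> simp [e]

theorem full {i : ι} (hi : i ∈ M) :
    #(M.filter fun j => dt (d i) (x j) = dt (d i) (x i)) = 2 * p := by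
  have := h.line_cnt (h.ne i hi) (dt (d i) (x i))
  have h0 : #(univ.filter fun z => dt (d i) z = dt (d i) (x i) ∧
      #(M.filter fun i => x i = z) = 0) = 0 := by
    refine card_eq_zero.2 (filter_eq_empty_iff.2 fun z _ e => ?_)
    have h2 := h.on_line hi (z := z) (by rw [dt_sub, e.1, sub_self])
    omega
  omega

/-- the weight of the line of a labelled point -/
def wt (M : Finset ι) (x d : ι → ZMod p × ZMod p) (i : ι) : ℕ :=
  #(M.filter fun j => dt (d i) (d j) = 0 ∧ dt (d i) (x j) = dt (d i) (x i))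

theorem wt_eq {i : ι} (hi : i ∈ M) {z : ZMod p × ZMod p}
    (hz : #(M.filter fun i => x i = z) = 0) :
    wt M x d i = 2 * #(univ.filter fun y => dt (d i) y = dt (d i) z ∧
      #(M.filter fun i => x i = y) = 0) := by
  have h1 := h.line_sum (d i) (dt (d i) (x i))
  have h2 := h.line_sum (d i) (dt (d i) z)
  have h3 := h.line_cnt (h.ne i hi) (dt (d i) z)
  rw [h.full hi] at h1
  have h4 : #(M.filter fun j => dt (d i) (d j) = 0 ∧ dt (d i) (x j) = dt (d i) z) = 0 := by
    rw [card_eq_zero, filter_eq_empty_iff]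
    rintro j hj ⟨e1, e2⟩
    obtain ⟨a, ha⟩ := par (h.ne i hi) e1
    have := h.on_line hj (z := z) (by rw [ha, smul_dt, dt_sub, e2, sub_self, mul_zero])
    omega
  rw [h4, mul_zero, zero_add] at h2
  rw [← h2, ← mul_add] at h1
  have := Nat.eq_of_mul_eq_mul_left hp.out.pos h1
  unfold wt
  omega

theorem wt_ge {i : ι} (hi : i ∈ M) :
    2 * #(univ.filter fun z => #(M.filter fun i => x i = z) = 0) ≤ (p - 1) * wt M x d i := by
  rw [card_eq_sum_card_fiberwise (f := fun z => dt (d i) z)
    (t := univ.erase (dt (d i) (x i))), mul_sum]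
  · refine (sum_le_card_nsmul _ _ (wt M x d i) fun c _ => ?_).trans ?_
    · rw [filter_filter]
      rcases (univ.filter fun z => #(M.filter fun i => x i = z) = 0 ∧
        dt (d i) z = c).eq_empty_or_nonempty with e | ⟨z, hz⟩
      · rw [e]; simp
      · obtain ⟨-, h1, rfl⟩ := mem_filter.1 hz
        rw [h.wt_eq hi h1]
        simp only [and_comm, le_refl]
    · simp
  · intro z hz
    simp only [coe_filter, mem_univ, true_and, Set.mem_ofPred_eq] at hz
    simp only [coe_erase, coe_univ, Set.mem_sdiff, Set.mem_univ, Set.mem_singleton_iff, true_and]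
    intro e
    have := h.on_line hi (z := z) (by rw [dt_sub, e, sub_self])
    omega

theorem cls {i : ι} (hi : i ∈ M) {z : ZMod p × ZMod p} (hz : dt (d i) (z - x i) = 0) :
    #((M.filter fun j => dt (d j) (z - x j) = 0).filter fun j => dt (d i) (d j) = 0) =
      wt M x d i := by
  rw [filter_filter, wt]
  congr 1
  refine filter_congr fun j hj => ⟨fun e => ⟨e.2, ?_⟩, fun e => ⟨?_, e.1⟩⟩
  · obtain ⟨a, ha⟩ := par (v := d i) (h.ne j hj) (by rw [dt_swap, e.2, neg_zero])
    have : dt (d i) (z - x j) = 0 := by rw [ha, smul_dt, e.1, mul_zero]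
    rw [dt_sub] at this hz
    linear_combination hz - this
  · obtain ⟨a, ha⟩ := par (h.ne i hi) e.1
    rw [dt_sub] at hz
    rw [ha, smul_dt, dt_sub, e.2, hz, mul_zero]

theorem pair (hw : ∀ i ∈ M, 2 * p < 3 * wt M x d i) {i j : ι} (hi : i ∈ M) (hj : j ∈ M)
    (hij : dt (d i) (d j) ≠ 0) {z : ZMod p × ZMod p} (h1 : dt (d i) (z - x i) = 0)
    (h2 : dt (d j) (z - x j) = 0) : wt M x d i + wt M x d j = 2 * p := by
  classical
  have hI := h.thru z
  rw [h.on_line hi h1] at hI
  set I := M.filter fun j => dt (d j) (z - x j) = 0 with hId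
  have dis : ∀ {a b : ι}, dt (d a) (d b) ≠ 0 →
      Disjoint (I.filter fun j => dt (d a) (d j) = 0) (I.filter fun j => dt (d b) (d j) = 0) :=
    fun hab => disjoint_filter.2 fun k hk e1 e2 =>
      hab (par_trans (h.ne k (mem_filter.1 hk).1) e1 e2)
  have hu := card_union_of_disjoint (dis hij)
  rw [h.cls hi h1, h.cls hj h2] at hu
  by_cases hk : ∃ k ∈ I, dt (d k) (d i) ≠ 0 ∧ dt (d k) (d j) ≠ 0
  · exfalso
    obtain ⟨k, hk, e1, e2⟩ := hk
    have h3 := card_union_of_disjoint (disjoint_union_right.2 ⟨dis e1, dis e2⟩)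
    rw [hu, h.cls (mem_filter.1 hk).1 (mem_filter.1 hk).2] at h3
    have h4 : wt M x d k + (wt M x d i + wt M x d j) ≤ #I := by
      rw [← h3]
      exact card_le_card (union_subset (filter_subset _ _)
        (union_subset (filter_subset _ _) (filter_subset _ _)))
    have := hw i hi
    have := hw j hj
    have := hw k (mem_filter.1 hk).1
    omega
  · push Not at hk
    rw [← hu, mul_comm, ← hI]
    congr 1
    refine subset_antisymm (union_subset (filter_subset _ _) (filter_subset _ _)) fun k hkI => ?_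
    by_cases e : dt (d k) (d i) = 0
    · exact mem_union_left _ (mem_filter.2 ⟨hkI, by rw [dt_swap, e, neg_zero]⟩)
    · exact mem_union_right _ (mem_filter.2 ⟨hkI, by rw [dt_swap, hk k hkI e, neg_zero]⟩)

theorem main (hp2 : p ≠ 2) :
    (∃ u ≠ 0, (∀ i ∈ M, dt u (d i) = 0) ∧ 2 * p ∣ #M) ∨ 4 * p ^ 2 + 2 * p ≤ 3 * #M := by
  by_contra hcon
  rw [not_or, not_le] at hcon
  obtain ⟨hA, hB⟩ := hcon
  have h1 := hp.out.two_le
  have ht := h.tot
  set C := univ.filter fun z => #(M.filter fun i => x i = z) = 0 with hC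
  have hC3 : p * (p - 1) < 3 * #C := by
    obtain ⟨q, rfl⟩ : ∃ q, p = q + 1 := ⟨p - 1, by omega⟩
    simp only [Nat.add_sub_cancel]
    nlinarith
  have hw : ∀ i ∈ M, 2 * p < 3 * wt M x d i := fun i hi => by
    have := h.wt_ge hi
    rw [← hC] at this
    have h2 : (p - 1) * (2 * p) < (p - 1) * (3 * wt M x d i) := by nlinarith
    exact lt_of_mul_lt_mul_left h2 (Nat.zero_le _)
  obtain ⟨c, hc⟩ : C.Nonempty := card_pos.1 (by omega)
  replace hc := (mem_filter.1 hc).2
  have hpar : ∀ i ∈ M, ∀ j ∈ M, dt (d i) (d j) = 0 := by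
    intro i hi j hj
    by_contra hij
    obtain ⟨z, e1, e2⟩ := meet hij (dt (d i) (x i)) (dt (d j) (x j))
    have a1 := h.pair hw hi hj hij (z := z) (by rw [dt_sub, e1, sub_self])
      (by rw [dt_sub, e2, sub_self])
    obtain ⟨y, e3, e4⟩ := meet hij (dt (d i) (x i)) (dt (d j) c)
    have hy : dt (d i) (y - x i) = 0 := by rw [dt_sub, e3, sub_self]
    obtain ⟨k, hk, hik⟩ : ∃ k ∈ M.filter fun j => dt (d j) (y - x j) = 0,
        dt (d i) (d k) ≠ 0 := by
      by_contra hn
      push Not at hn
      have b1 := h.cls hi hy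
      rw [filter_true_of_mem hn, h.thru, h.on_line hi hy] at b1
      have := hw j hj
      omega
    obtain ⟨hk, hky⟩ := mem_filter.1 hk
    have hjk : dt (d j) (d k) ≠ 0 := fun e => by
      obtain ⟨a, ha⟩ := par (h.ne j hj) e
      have b1 : dt (d k) (c - x k) = 0 := by
        rw [dt_sub] at hky ⊢
        rw [← hky, ha, smul_dt, smul_dt, smul_dt, e4]
      have := h.on_line hk b1
      omega
    have a2 := h.pair hw hi hk hik hy hky
    obtain ⟨w, e5, e6⟩ := meet hjk (dt (d j) (x j)) (dt (d k) (x k))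
    have a3 := h.pair hw hj hk hjk (z := w) (by rw [dt_sub, e5, sub_self])
      (by rw [dt_sub, e6, sub_self])
    have a4 := h.wt_eq hi hc
    obtain ⟨t, ht⟩ := hp.out.odd_of_ne_two hp2
    omega
  apply hA
  rcases M.eq_empty_or_nonempty with rfl | ⟨i, hi⟩
  · exact ⟨(1, 0), by simp, by simp, by simp⟩
  refine ⟨d i, h.ne i hi, hpar i hi, ?_⟩
  rw [card_eq_sum_card_fiberwise (f := fun j => dt (d i) (x j)) (s := M) (t := univ)
    (fun i _ => by simp)]
  refine dvd_sum fun c _ => ?_
  rcases (M.filter fun j => dt (d i) (x j) = c).eq_empty_or_nonempty with e | ⟨j, hj⟩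
  · rw [e]; simp
  · replace hj := mem_filter.1 hj
    obtain ⟨hj, rfl⟩ := hj
    obtain ⟨a, ha⟩ := par (h.ne i hi) (hpar i hi j hj)
    have ha0 : a ≠ 0 := fun e => h.ne j hj (by rw [ha, e, zero_smul])
    rw [← h.full hj]
    simp only [ha, smul_dt, mul_right_inj' ha0, dvd_refl]

end Cfg

end Pool.Agent.P.MP_d5661c_co.Ab
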