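import Mathlib
import Pool.Agent.P.MP_d5661c_co.Ab.Cnt
import Pool.Agent.P.MP_d5661c_co.Ab.Geo

/-! The structure of one coset of the top layer. -/

set_option autoImplicit false

namespace Pool.Agent.P.MP_d5661c_co.Ab

open Finset

theorem cs {κ β : Type*} [DecidableEq β] (M : Finset κ) (f : κ → β) (t : Finset β)
    (h : ∀ i ∈ M, f i ∈ t) : #M ^ 2 ≤ #t * #((M ×ˢ M).filter fun μ => f μ.1 = f μ.2) := by
  rw [card_eq_sum_card_fiberwise (f := f) (s := M) (t := t) h,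
    card_eq_sum_card_fiberwise (f := fun μ => f μ.1)
      (s := (M ×ˢ M).filter fun μ => f μ.1 = f μ.2) (t := t)
      fun μ hμ => h _ (mem_product.1 (mem_filter.1 hμ).1).1]
  refine sq_sum_le_card_mul_sum_sq.trans (Nat.mul_le_mul_left _ (sum_le_sum fun b _ => ?_))
  rw [sq, ← card_product]
  refine card_le_card fun μ hμ => ?_
  simp only [mem_product, mem_filter] at hμ ⊢
  exact ⟨⟨⟨hμ.1.1, hμ.2.1⟩, hμ.1.2.trans hμ.2.2.symm⟩, hμ.1.2⟩

variable {A : Type*} [AddCommGroup A] [Fintype A] [DecidableEq A] {ι : Type*} [Fintype ι]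
  [DecidableEq ι]

omit [DecidableEq A] in
theorem cd_eq (S : AddSubgroup A) [DecidablePred (· ∈ S)] : cd S = Nat.card S := by
  rw [cd, Nat.card_eq_fintype_card, Fintype.card_subtype]

omit [DecidableEq A] in
theorem emb {p : ℕ} [hp : Fact p.Prime] (Z : AddSubgroup A) [DecidablePred (· ∈ Z)]
    (h1 : ∀ a ∈ Z, p • a = 0) (h2 : cd Z ≤ p ^ 2) :
    ∃ e : A → ZMod p × ZMod p, e 0 = 0 ∧
      (∀ a ∈ Z, ∀ b ∈ Z, ∀ c : ℕ, e (a + c • b) = e a + (c : ZMod p) • e b) ∧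
      ∀ a ∈ Z, ∀ b ∈ Z, e a = e b → a = b := by
  let _ : Module (ZMod p) Z := AddCommGroup.zmodModule fun a => Subtype.ext (h1 a a.2)
  have : Module.Finite (ZMod p) Z := Module.Finite.of_finite
  rw [cd_eq, Module.natCard_eq_pow_finrank (K := ZMod p), Nat.card_zmod,
    Nat.pow_le_pow_iff_right hp.out.one_lt] at h2
  obtain ⟨f, hf⟩ := (finrank_le_iff_exists_linearMap (R := ZMod p) (M := Z)
    (M' := ZMod p × ZMod p)).1 (by simpa using h2)
  refine ⟨fun a => if h : a ∈ Z then f ⟨a, h⟩ else 0, ?_, fun a ha b hb c => ?_,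
    fun a ha b hb e => ?_⟩
  · simp only [Z.zero_mem, dif_pos]
    exact map_zero f
  · simp only [ha, hb, Z.add_mem ha (Z.nsmul_mem hb c), dif_pos]
    rw [Nat.cast_smul_eq_nsmul, ← map_nsmul, ← map_add]
    rfl
  · simp only [ha, hb, dif_pos] at e
    exact congrArg Subtype.val (hf e)

namespace RDS

variable {N : AddSubgroup A} [DecidablePred (· ∈ N)] {s : ι → A} {n : ℕ} (h : RDS N s n)
include h

theorem le_two (y : A) : #(univ.filter fun μ : ι × ι => s μ.1 + s μ.2 = y) ≤ 2 := by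
  rcases (univ.filter fun μ : ι × ι => s μ.1 + s μ.2 = y).eq_empty_or_nonempty with e | ⟨ν, hν⟩
  · rw [e]; simp
  · refine le_trans (card_le_card fun μ hμ => ?_) (card_le_two (a := ν) (b := ν.swap))
    simpa using h.sidon ((mem_filter.1 hμ).2.trans (mem_filter.1 hν).2.symm)

theorem MM_le (Z : AddSubgroup A) [DecidablePred (· ∈ Z)] (x : A) :
    #(MM s Z x) ≤ 2 * cd Z := by
  refine card_le_mul_card_image_of_maps_to (f := fun μ => s μ.1 + s μ.2 - x)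
    (fun μ hμ => by simpa [MM] using hμ) 2 fun b _ => le_trans (card_le_card fun μ hμ => ?_)
    (h.le_two (b + x))
  simpa [sub_eq_iff_eq_add] using (mem_filter.1 hμ).2

theorem star2 (W : AddSubgroup A) [DecidablePred (· ∈ W)] (y : A) :
    #(univ.filter fun μ : ι × ι => s μ.1 - s μ.2 ∉ W ∧ s μ.1 + s μ.2 = y) = 0 ∨
    #(univ.filter fun μ : ι × ι => s μ.1 - s μ.2 ∉ W ∧ s μ.1 + s μ.2 = y) = 2 := by
  rcases (univ.filter fun μ : ι × ι => s μ.1 - s μ.2 ∉ W ∧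
    s μ.1 + s μ.2 = y).eq_empty_or_nonempty with e | ⟨ν, hν⟩
  · left; rw [e]; simp
  · right
    obtain ⟨-, h1, h2⟩ := mem_filter.1 hν
    rw [card_eq_two]
    refine ⟨ν, ν.swap, fun e => h1 ?_, ext fun μ => ?_⟩
    · have : ν.1 = ν.2 := congrArg Prod.fst e
      rw [this, sub_self]
      exact W.zero_mem
    · simp only [mem_filter, mem_univ, true_and, mem_insert, mem_singleton]
      refine ⟨fun e => h.sidon (e.2.trans h2.symm), ?_⟩
      rintro (rfl | rfl)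
      · exact ⟨h1, h2⟩
      · exact ⟨fun e => h1 (by simpa using W.neg_mem e), by simpa [add_comm] using h2⟩

variable {p k b : ℕ} (hp : p.Prime) (hp2 : p ≠ 2) (hk : 1 ≤ k) (hn : n = p ^ b)
  (hA : ∀ a : A, p ^ (k + 1) • a = 0) {Z W : AddSubgroup A} [DecidablePred (· ∈ Z)]
  [DecidablePred (· ∈ W)] (hZ : ∀ a, a ∈ Z ↔ ∃ c, p ^ k • c = a)
  (hW : ∀ a, a ∈ W ↔ p ^ k • a = 0)
include hp hp2 hk hn hA hW

theorem star1 (a : ℕ) (y : A) :
    #(univ.filter fun μ : ι × ι => s μ.1 - s μ.2 ∉ W ∧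
      s μ.1 + s μ.2 + a • p ^ k • (s μ.1 - s μ.2) = y) =
    #(univ.filter fun μ : ι × ι => s μ.1 - s μ.2 ∉ W ∧ s μ.1 + s μ.2 = y) := by
  have h1 := h.shift hp hp2 hk hn hA a y
  rw [← card_filter_add_card_filter_not (fun μ : ι × ι => s μ.1 - s μ.2 ∈ W),
    ← card_filter_add_card_filter_not (s := univ.filter fun μ : ι × ι => s μ.1 + s μ.2 = y)
      (fun μ : ι × ι => s μ.1 - s μ.2 ∈ W)] at h1
  simp only [filter_filter] at h1
  rw [filter_congr (q := fun μ : ι × ι => s μ.1 + s μ.2 = y ∧ s μ.1 - s μ.2 ∈ W)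
    fun μ _ => and_congr_left fun e => by rw [(hW _).1 e, smul_zero, add_zero]] at h1
  simpa only [and_comm, add_right_inj] using h1

include hZ

theorem loc (h2 : cd Z ≤ p ^ 2) (x : A) :
    ∃ a c E : ℕ, #((MM s Z x).filter fun μ => s μ.1 - s μ.2 ∈ W) = a ∧ #(MM s Z x) = a + c ∧
      a ^ 2 + E ≤ UU s Z W x ∧
      ((c ^ 2 ≤ (p - 1) * E ∧ 2 * p ∣ c) ∨ (c ^ 2 ≤ (p ^ 2 - 1) * E ∧ 4 * p ^ 2 + 2 * p ≤ 3 * c)) := by
  have := Fact.mk hp
  have hZW : ∀ a ∈ Z, p ^ k • a = 0 := fun a ha => by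
    obtain ⟨c, rfl⟩ := (hZ a).1 ha
    obtain ⟨k', rfl⟩ : ∃ k', k = k' + 1 := ⟨k - 1, by omega⟩
    rw [← hA (p ^ k' • c), smul_smul, smul_smul]
    congr 1
    ring
  obtain ⟨e, e0, e1, e2⟩ := emb (p := p) Z (fun a ha => by
    obtain ⟨c, rfl⟩ := (hZ a).1 ha
    rw [smul_smul, ← pow_succ', hA]) h2
  set M1 := (MM s Z x).filter fun μ => s μ.1 - s μ.2 ∉ W with hM1
  set M0 := (MM s Z x).filter fun μ => s μ.1 - s μ.2 ∈ W with hM0
  have hδ : ∀ μ : ι × ι, p ^ k • (s μ.1 - s μ.2) ∈ Z := fun μ => (hZ _).2 ⟨_, rfl⟩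
  have hM : ∀ μ ∈ MM s Z x, s μ.1 + s μ.2 - x ∈ Z := fun μ hμ => (mem_filter.1 hμ).2
  have key : ∀ (c : ℕ) (y : ZMod p × ZMod p),
      (#(M1.filter fun μ => e (s μ.1 + s μ.2 - x) + (c : ZMod p) •
        e (p ^ k • (s μ.1 - s μ.2)) = y) = 0 ∧ ∀ a ∈ Z, e a ≠ y) ∨ ∃ a ∈ Z, e a = y ∧
      #(M1.filter fun μ => e (s μ.1 + s μ.2 - x) + (c : ZMod p) •
        e (p ^ k • (s μ.1 - s μ.2)) = y) =
      #(univ.filter fun μ : ι × ι => s μ.1 - s μ.2 ∉ W ∧ s μ.1 + s μ.2 = a + x) := by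
    intro c y
    by_cases hy : ∃ a ∈ Z, e a = y
    · obtain ⟨a, ha, rfl⟩ := hy
      refine Or.inr ⟨a, ha, rfl, ?_⟩
      rw [← h.star1 hp hp2 hk hn hA hW c]
      congr 1
      ext μ
      simp only [hM1, MM, mem_filter, mem_univ, true_and]
      constructor
      · rintro ⟨⟨a1, a2⟩, a3⟩
        rw [← e1 _ a1 _ (hδ μ)] at a3
        refine ⟨a2, ?_⟩
        rw [← e2 _ (Z.add_mem a1 (Z.nsmul_mem (hδ μ) c)) _ ha a3]
        abel
      · rintro ⟨a1, a2⟩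
        have a3 : s μ.1 + s μ.2 - x + c • p ^ k • (s μ.1 - s μ.2) = a := by
          rw [sub_add_eq_add_sub, a2, add_sub_cancel_right]
        have a4 : s μ.1 + s μ.2 - x ∈ Z := by
          rw [eq_sub_of_add_eq a3]
          exact Z.sub_mem ha (Z.nsmul_mem (hδ μ) c)
        exact ⟨⟨a4, a1⟩, by rw [← e1 _ a4 _ (hδ μ), a3]⟩
    · push Not at hy
      refine Or.inl ⟨card_eq_zero.2 (filter_eq_empty_iff.2 fun μ hμ e3 => ?_), hy⟩
      have a1 := hM μ (mem_filter.1 hμ).1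
      rw [← e1 _ a1 _ (hδ μ)] at e3
      exact hy _ (Z.add_mem a1 (Z.nsmul_mem (hδ μ) c)) e3
  have hne : ∀ μ ∈ M1, e (p ^ k • (s μ.1 - s μ.2)) ≠ 0 := fun μ hμ e3 =>
    (mem_filter.1 hμ).2 ((hW _).2 (e2 _ (hδ μ) _ Z.zero_mem (e3.trans e0.symm)))
  have C : Cfg M1 (fun μ => e (s μ.1 + s μ.2 - x)) fun μ => e (p ^ k • (s μ.1 - s μ.2)) := by
    refine ⟨hne, fun y => ?_, fun c y => ?_⟩
    · have := key 0 y
      simp only [Nat.cast_zero, zero_smul, add_zero] at this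
      rcases this with ⟨a1, -⟩ | ⟨a, -, -, a1⟩
      · exact Or.inl a1
      · rw [a1]; exact h.star2 W _
    · have a1 := key 0 y
      have a2 := key c.val y
      simp only [Nat.cast_zero, zero_smul, add_zero, ZMod.natCast_val, ZMod.cast_id', id]
        at a1 a2
      rcases a1 with ⟨a1, a3⟩ | ⟨a, ha, a3, a1⟩ <;> rcases a2 with ⟨a2, a4⟩ | ⟨a', ha', a4, a2⟩
      · rw [a1, a2]
      · exact absurd a4 (a3 _ ha')
      · exact absurd a3 (a4 _ ha)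
      · rw [a1, a2, e2 _ ha _ ha' (a3.trans a4.symm)]
  refine ⟨#M0, #M1, #((M1 ×ˢ M1).filter fun μ => e (p ^ k • (s μ.1.1 - s μ.1.2)) =
    e (p ^ k • (s μ.2.1 - s μ.2.2))), rfl, (card_filter_add_card_filter_not _).symm, ?_, ?_⟩
  · have cond : ∀ μ ∈ MM s Z x, ∀ ν ∈ MM s Z x,
        p ^ k • (s μ.1 - s μ.2) = p ^ k • (s ν.1 - s ν.2) → s μ.1 - s ν.1 ∈ W := by
      intro μ hμ ν hν e3
      obtain ⟨j, hj⟩ : Odd (p ^ (k + 1)) := (hp.odd_of_ne_two hp2).pow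
      have a1 := hZW _ (hM μ hμ)
      have a2 := hZW _ (hM ν hν)
      have a3 := hA (p ^ k • (s μ.1 - s ν.1))
      rw [hj] at a3
      rw [hW]
      linear_combination (norm := module) a3 - j • (e3 + a1 - a2)
    rw [sq, ← card_product, ← card_union_of_disjoint]
    · refine card_le_card (union_subset (fun μ hμ => ?_) fun μ hμ => ?_)
      · obtain ⟨a1, a2⟩ := mem_product.1 hμ
        obtain ⟨a1, a3⟩ := mem_filter.1 a1
        obtain ⟨a2, a4⟩ := mem_filter.1 a2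
        exact mem_filter.2 ⟨mem_product.2 ⟨a1, a2⟩,
          cond _ a1 _ a2 (((hW _).1 a3).trans ((hW _).1 a4).symm)⟩
      · obtain ⟨a0, a5⟩ := mem_filter.1 hμ
        obtain ⟨a1, a2⟩ := mem_product.1 a0
        exact mem_filter.2 ⟨mem_product.2 ⟨(mem_filter.1 a1).1, (mem_filter.1 a2).1⟩,
          cond _ (mem_filter.1 a1).1 _ (mem_filter.1 a2).1 (e2 _ (hδ _) _ (hδ _) a5)⟩
    · exact disjoint_left.2 fun μ a1 a2 =>
        (mem_filter.1 (mem_product.1 (mem_filter.1 a2).1).1).2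
          (mem_filter.1 (mem_product.1 a1).1).2
  · rcases C.main hp2 with ⟨u, hu, a1, a2⟩ | a1
    · refine Or.inl ⟨?_, a2⟩
      have := cs M1 (fun μ => e (p ^ k • (s μ.1 - s μ.2)))
        ((univ.filter fun z => dt u z = 0).erase 0)
        fun μ hμ => mem_erase.2 ⟨hne μ hμ, mem_filter.2 ⟨mem_univ _, a1 μ hμ⟩⟩
      rwa [card_erase_of_mem (mem_filter.2 ⟨mem_univ _, by simp [dt]⟩), card_line hu] at this
    · refine Or.inr ⟨?_, a1⟩
      have := cs M1 (fun μ => e (p ^ k • (s μ.1 - s μ.2))) (univ.erase 0)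
        fun μ hμ => mem_erase.2 ⟨hne μ hμ, mem_univ _⟩
      rwa [card_erase_of_mem (mem_univ _), card_univ, Fintype.card_prod, ZMod.card, ← sq] at this

end RDS

end Pool.Agent.P.MP_d5661c_co.Ab
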