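import Mathlib
import Pool.Agent.P.MP_d5661c_co.Ab.Loc

/-! The top layer of an abelian group with a planar relative difference set. -/

set_option autoImplicit false

namespace Pool.Agent.P.MP_d5661c_co.Ab

open Finset

theorem pt1 {p a c : ℤ} (h : c = 0 ∨ (c = 2 * p ∧ a = 0)) :
    p ^ 2 ≤ (a + c - p) ^ 2 + (2 * p - 1) * a := by
  rcases h with rfl | ⟨rfl, rfl⟩
  · have : 0 ≤ a * (a - 1) := by
      rcases le_or_gt a 0 with h | h
      · nlinarith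
      · exact mul_nonneg h.le (by omega)
    nlinarith
  · nlinarith

theorem cs2 {a c E q : ℤ} (hq : 0 < q) (h : c ^ 2 ≤ q * E) :
    (a + c) ^ 2 ≤ (q + 1) * (a ^ 2 + E) := by
  have : q * (a + c) ^ 2 ≤ q * ((q + 1) * (a ^ 2 + E)) := by nlinarith [sq_nonneg (q * a - c)]
  exact le_of_mul_le_mul_left this hq

theorem pt2 {p a c E U : ℤ} (hp : 2 ≤ p) (ha : 0 ≤ a) (hU : a ^ 2 + E ≤ U)
    (h : c ^ 2 ≤ (p - 1) * E ∨ (c ^ 2 ≤ (p ^ 2 - 1) * E ∧ 4 * p ^ 2 + 2 * p ≤ 3 * c)) :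
    p * (a + c) ^ 2 ≤ p ^ 2 * U + 16 * (p - 1) * (a + c - p ^ 2) ^ 2 := by
  rcases h with h | ⟨h, h2⟩
  · have h1 := cs2 (a := a) (by omega) h
    have h3 : 0 ≤ 16 * (p - 1) * (a + c - p ^ 2) ^ 2 :=
      mul_nonneg (by omega) (sq_nonneg _)
    have h4 : (a + c) ^ 2 ≤ p * U := by nlinarith
    nlinarith
  · have h1 := cs2 (a := a) (by nlinarith) h
    have h4 : (a + c) ^ 2 ≤ p ^ 2 * U := by nlinarith [sq_nonneg p]
    have h5 : (a + c) ^ 2 ≤ 16 * (a + c - p ^ 2) ^ 2 := by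
      have : (a + c) ^ 2 ≤ (4 * (a + c - p ^ 2)) ^ 2 :=
        pow_le_pow_left₀ (by nlinarith) (by linarith) 2
      linarith
    nlinarith

theorem pt3 {a c E U : ℤ} (ha : 0 ≤ a) (hc : 0 ≤ c) (hE : 0 ≤ E) (hU : a ^ 2 + E ≤ U)
    (h : (c ^ 2 ≤ 2 * E ∧ 6 ∣ c) ∨ (c ^ 2 ≤ 8 * E ∧ 42 ≤ 3 * c)) :
    122 + 10 * (a + c - 9) ≤ 5 * U + 2 * (a + c - 9) ^ 2 := by
  rcases h with ⟨h, j, rfl⟩ | ⟨h, h2⟩
  · rcases (show j = 0 ∨ j = 1 ∨ 2 ≤ j by omega) with rfl | rfl | hj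
    · nlinarith [sq_nonneg (7 * a - 23)]
    · rcases (show a ≤ 1 ∨ 2 ≤ a by omega) with h1 | h1 <;> nlinarith
    · nlinarith [sq_nonneg (2 * (a + 6 * j - 9) - 5), sq_nonneg a]
  · nlinarith [sq_nonneg a]

theorem fin1 {p n n' v w : ℤ} (hp : 3 ≤ p) (hn0 : 0 < n) (hzw : p * w = n ^ 2)
    (hnle : n ≤ n' * v) (v1 : 1 ≤ v) (v2 : v ≤ p) (_v3 : 1 ≤ n') (v6 : p * p ≤ n)
    (key : n ^ 2 * p ^ 2 ≤ p * (n ^ 2 - n * v) + (2 * p - 1) * (p * (n + w - n'))) : False := by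
  have a1 : n ≤ p * n' := by nlinarith
  have a2 : (p ^ 2 - 3 * p + 1) * n ^ 2 ≤ (2 * p ^ 2 - 4 * p + 1) * n := by
    have b1 : (2 * p - 1) * n ≤ (2 * p - 1) * (p * n') :=
      mul_le_mul_of_nonneg_left a1 (by linarith)
    have b2 : p * n * 1 ≤ p * n * v := mul_le_mul_of_nonneg_left v1 (by positivity)
    have b3 : (2 * p - 1) * (p * w) = (2 * p - 1) * n ^ 2 := by rw [hzw]
    linarith
  have a3 : (p ^ 2 - 3 * p + 1) * n ≤ 2 * p ^ 2 - 4 * p + 1 :=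
    le_of_mul_le_mul_right (by linarith) hn0
  have a4 : 1 ≤ p ^ 2 - 3 * p + 1 := by nlinarith
  have a5 : (p ^ 2 - 3 * p + 1) * (p * p) ≤ (p ^ 2 - 3 * p + 1) * n :=
    mul_le_mul_of_nonneg_left v6 (by linarith)
  rcases (show p = 3 ∨ 4 ≤ p by omega) with rfl | e
  · linarith
  · have := mul_nonneg (show 0 ≤ p ^ 2 - 3 * p - 1 by nlinarith) (sq_nonneg p)
    linarith

theorem fin3 {n n' v : ℤ} (hnle : n ≤ n' * v) (v1 : 1 ≤ v) (v2 : v ≤ 9) (v6 : 27 ≤ n)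
    (key : n ^ 2 * 122 + 10 * (9 * n ^ 2 - n ^ 2 * 9) ≤
      5 * (9 * (n ^ 2 + 2 * n * 9 - 2 * n * v + n ^ 2 - 2 * n' * 9 + n' * v)) +
        2 * (9 * (n ^ 2 - n * v))) : False := by
  have a1 : 18 * n - 2 * n * v - n' * (18 - v) ≤ 7 * n := by
    refine le_of_mul_le_mul_left ?_ (show 0 < v by omega)
    nlinarith [mul_nonneg (show 0 ≤ n by omega) (sq_nonneg (v - 3)),
      mul_le_mul_of_nonneg_right hnle (show 0 ≤ 18 - v by omega)]
  nlinarith [mul_nonneg (show 0 ≤ n by omega) (show 0 ≤ v by omega)]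

theorem fin5 {p n n' v : ℤ} (hp : 5 ≤ p) (hn0 : 0 < n) (v1 : 1 ≤ v) (v2 : v ≤ p ^ 2)
    (v3 : 1 ≤ n') (v6 : p * p ^ 2 ≤ n)
    (key : p * (p ^ 2 * (n ^ 2 - n * v) + 2 * p ^ 2 * (p ^ 2 * n ^ 2) - n ^ 2 * (p ^ 2) ^ 2) ≤
      p ^ 2 * (p ^ 2 * (n ^ 2 + 2 * n * p ^ 2 - 2 * n * v + n ^ 2 - 2 * n' * p ^ 2 + n' * v)) +
        16 * (p - 1) * (p ^ 2 * (n ^ 2 - n * v))) : False := by
  have hP : 0 < p ^ 2 := by positivity
  have a0 : p * (n ^ 2 - n * v + p ^ 2 * n ^ 2) ≤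
      p ^ 2 * (n ^ 2 + 2 * n * p ^ 2 - 2 * n * v + n ^ 2 - 2 * n' * p ^ 2 + n' * v) +
        16 * (p - 1) * (n ^ 2 - n * v) := le_of_mul_le_mul_left (by linarith) hP
  have b0 : 0 ≤ n * v := by positivity
  have b1 : 0 ≤ n' * (2 * p ^ 2 - v) := mul_nonneg (by omega) (by linarith)
  have a1 : n ^ 2 + 2 * n * p ^ 2 - 2 * n * v + n ^ 2 - 2 * n' * p ^ 2 + n' * v ≤
      2 * n ^ 2 + 2 * n * p ^ 2 := by linarith
  have a2 := mul_le_mul_of_nonneg_left a1 hP.le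
  have a3 : (15 * p - 16) * (n ^ 2 - n * v) ≤ (15 * p - 16) * n ^ 2 :=
    mul_le_mul_of_nonneg_left (by linarith) (by linarith)
  have a4 : 2 * p * n * (p * p ^ 2) ≤ 2 * p * n * n :=
    mul_le_mul_of_nonneg_left v6 (by positivity)
  have a5 : (p ^ 3 - 2 * p ^ 2 - 17 * p + 16) * n ^ 2 ≤ 0 := by linarith
  have a6 : 0 < p ^ 3 - 2 * p ^ 2 - 17 * p + 16 := by
    nlinarith [mul_nonneg (show 0 ≤ p - 5 by linarith) (sq_nonneg p)]
  have := mul_pos a6 (pow_pos hn0 2)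
  linarith

variable {A : Type*} [AddCommGroup A] [Fintype A] [DecidableEq A] {ι : Type*} [Fintype ι]
  [DecidableEq ι]

namespace RDS

variable {N : AddSubgroup A} [DecidablePred (· ∈ N)] {s : ι → A} {n : ℕ} (h : RDS N s n)
  {p k b : ℕ} (hp : p.Prime) (hp2 : p ≠ 2) (hk : 1 ≤ k) (hn : n = p ^ b)
  (hA : ∀ a : A, p ^ (k + 1) • a = 0) {Z W : AddSubgroup A} [DecidablePred (· ∈ Z)]
  [DecidablePred (· ∈ W)] (hZ : ∀ a, a ∈ Z ↔ ∃ c, p ^ k • c = a)
  (hW : ∀ a, a ∈ W ↔ p ^ k • a = 0)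
include h hZ hW

omit [DecidableEq ι] in
theorem zw : cd Z * cd W = n ^ 2 := by
  have e1 : Z = (nsmulAddMonoidHom (p ^ k) : A →+ A).range := AddSubgroup.ext fun a => hZ a
  have e2 : W = (nsmulAddMonoidHom (p ^ k) : A →+ A).ker := AddSubgroup.ext fun a => hW a
  rw [cd_eq, cd_eq, ← h.cA, ← Nat.card_eq_fintype_card,
    AddSubgroup.card_eq_card_quotient_mul_card_addSubgroup W, e1, e2,
    Nat.card_congr (QuotientAddGroup.quotientKerEquivRange _).toEquiv]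

omit [DecidableEq ι] in
theorem nle : n ≤ cd2 N W * cd2 N Z := by
  rw [← h.cN]
  refine card_le_mul_card_image_of_maps_to (f := fun a => p ^ k • a) (fun a ha => ?_) _
    fun y _ => ?_
  · exact mem_filter.2 ⟨mem_univ _, N.nsmul_mem (mem_filter.1 ha).2 _, (hZ _).2 ⟨a, rfl⟩⟩
  · rcases ((univ.filter (· ∈ N)).filter fun a => p ^ k • a = y).eq_empty_or_nonempty
      with e | ⟨c, hc⟩
    · rw [e]; simp
    · refine card_le_card_of_injOn (fun a => a - c) (fun a ha => ?_)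
        fun a _ a' _ e => sub_left_injective e
      simp only [coe_filter, mem_filter, mem_univ, true_and, Set.mem_ofPred_eq] at ha hc ⊢
      exact ⟨N.sub_mem ha.1 hc.1, (hW _).2 (by rw [smul_sub, ha.2, hc.2, sub_self])⟩

include hp hp2 hk hn hA

theorem top (h1 : cd Z ≠ 1) : p ^ 3 ≤ cd Z ∧ cd Z < n := by
  have hzw := h.zw hZ hW
  have hnle := h.nle hZ hW
  have hb : 1 ≤ b := by
    by_contra e
    obtain rfl : b = 0 := by omega
    rw [hn, pow_zero, one_pow] at hzw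
    exact h1 (Nat.eq_one_of_mul_eq_one_right hzw)
  have hp3 : 3 ≤ p := by have := hp.two_le; omega
  have hZW : Z ≤ W := fun a ha => by
    obtain ⟨c, rfl⟩ := (hZ a).1 ha
    obtain ⟨k', rfl⟩ : ∃ k', k = k' + 1 := ⟨k - 1, by omega⟩
    rw [hW, ← hA (p ^ k' • c), smul_smul, smul_smul]
    congr 1
    ring
  have v1 : 1 ≤ cd2 N Z := card_pos.2 ⟨0, by simp [N.zero_mem, Z.zero_mem]⟩
  have v2 : cd2 N Z ≤ cd Z := card_le_card fun a ha => by
    simpa using (mem_filter.1 ha).2.2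
  have v3 : 1 ≤ cd2 N W := card_pos.2 ⟨0, by simp [N.zero_mem, W.zero_mem]⟩
  have v4 : n < cd W := by
    have c1 := h.c1 W
    have : ∑ _i : ι, (2 : ℤ) ≤ ∑ μ : ι × ι, ind (s μ.1 - s μ.2 ∈ W) := by
      rw [Fintype.sum_prod_type]
      refine sum_le_sum fun i _ => ?_
      obtain ⟨j, hj, e⟩ := h.partner hp hp2 hk hb hn hA i
      rw [sum_ind]
      exact_mod_cast one_lt_card.2 ⟨i, by simp [W.zero_mem], j, by simp [hW, smul_sub, e],
        hj.symm⟩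
    rw [c1, sum_const, card_univ, h.cι, nsmul_eq_mul] at this
    omega
  have v5 : cd Z < n := by
    by_contra e
    push Not at e
    have := Nat.mul_lt_mul_of_le_of_lt e v4 (by omega)
    rw [hzw, sq] at this
    exact lt_irrefl _ this
  refine ⟨?_, v5⟩
  obtain ⟨t, -, ht⟩ := (Nat.dvd_prime_pow hp).1
    (show cd Z ∣ p ^ (b * 2) from ⟨cd W, by rw [hzw, hn, pow_mul]⟩)
  have v6 : p * cd Z ≤ n := by
    rw [ht, hn] at v5 ⊢
    rw [← pow_succ']
    exact Nat.pow_le_pow_right hp.pos ((Nat.pow_lt_pow_iff_right hp.one_lt).1 v5)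
  by_contra hc
  rw [ht, Nat.pow_le_pow_iff_right hp.one_lt] at hc
  have L := h.loc hp hp2 hk hn hA hZ hW
    (by rw [ht]; exact Nat.pow_le_pow_right hp.pos (by omega))
  have s0 := h.s0 Z W
  have s1 := h.s1 Z
  have s2 := h.s2 Z
  have sU := h.sU Z W hZW
  have sc : ∀ c : ℤ, ∑ _x : A, c = n ^ 2 * c := fun c => by simp [h.cA]
  have hn0 : (0 : ℤ) < n := by exact_mod_cast (show 0 < n by omega)
  zify at hzw hnle v1 v2 v3 v6 hp3
  rcases (show t = 0 ∨ t = 1 ∨ t = 2 by omega) with rfl | rfl | rfl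
  · exact h1 ht
  · rw [pow_one] at ht
    have key : ∑ _x : A, (p : ℤ) ^ 2 ≤ ∑ x, (((#(MM s Z x) : ℤ) - cd Z) ^ 2 +
        (2 * p - 1) * #((MM s Z x).filter fun μ => s μ.1 - s μ.2 ∈ W)) := by
      refine sum_le_sum fun x _ => ?_
      obtain ⟨a, c, E, e1, e2, -, e3⟩ := L x
      have e4 := h.MM_le Z x
      rw [e1, e2, ht, Nat.cast_add]
      rw [e2, ht] at e4
      apply pt1
      rcases e3 with ⟨-, e3⟩ | ⟨-, e3⟩
      · rcases Nat.eq_zero_or_pos c with e5 | e5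
        · left; exact_mod_cast e5
        · have := Nat.le_of_dvd e5 e3
          right
          omega
      · exfalso
        have := hp.two_le
        nlinarith
    rw [sum_add_distrib, ← mul_sum, s0, s2, sc] at key
    rw [ht] at key hzw v2 v6
    exact fin1 hp3 hn0 hzw hnle v1 v2 v3 v6 key
  · have ht' : (cd Z : ℤ) = p ^ 2 := by exact_mod_cast ht
    by_cases e3 : p = 3
    · subst e3
      have key : ∑ x, (122 + 10 * ((#(MM s Z x) : ℤ) - cd Z)) ≤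
          ∑ x, (5 * (UU s Z W x : ℤ) + 2 * ((#(MM s Z x) : ℤ) - cd Z) ^ 2) := by
        refine sum_le_sum fun x _ => ?_
        obtain ⟨a, c, E, -, e2, e4, e5⟩ := L x
        rw [e2, ht', Nat.cast_add]
        zify at e4 e5
        exact pt3 (E := E) (by positivity) (by positivity) (by positivity) e4 (by simpa using e5)
      simp only [sum_add_distrib, sum_sub_distrib, ← mul_sum, s1, s2, sU, sc] at key
      rw [hzw] at key
      rw [ht'] at key v2 v6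
      exact fin3 hnle v1 v2 v6 key
    · have hp5 : (5 : ℤ) ≤ p := by
        have : p ≠ 4 := fun e => by rw [e] at hp; norm_num at hp
        omega
      have key : ∑ x, (p : ℤ) * (((#(MM s Z x) : ℤ) - cd Z) ^ 2 +
          2 * cd Z * #(MM s Z x) - cd Z ^ 2) ≤
          ∑ x, ((p : ℤ) ^ 2 * (UU s Z W x : ℤ) +
            16 * (p - 1) * ((#(MM s Z x) : ℤ) - cd Z) ^ 2) := by
        refine sum_le_sum fun x _ => ?_
        obtain ⟨a, c, E, -, e2, e4, e5⟩ := L x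
        rw [e2, ht', Nat.cast_add]
        have b1 := hp.one_lt.le
        have b2 : 1 ≤ p ^ 2 := Nat.one_le_pow _ _ hp.pos
        zify [b1, b2] at e4 e5
        have := pt2 (p := p) (E := E) (by omega) (by positivity) e4 (e5.imp_left And.left)
        linarith
      simp only [sum_add_distrib, sum_sub_distrib, ← mul_sum, s1, s2, sU, sc] at key
      rw [hzw] at key
      rw [ht'] at key v2 v6
      exact fin5 hp5 hn0 v1 v2 v3 v6 key

end RDS

end Pool.Agent.P.MP_d5661c_co.Ab
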